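import Pool.Agent.H691R2.Cat

set_option autoImplicit false

/-!
Sets of nodes with bounded antichains and the ideal generated by the branches in a set.
-/

namespace Pool.Agent.H691R2.Branch

open Encodable Pool.Agent.Helper750.Eff Pool.Agent.Helper750.Sig Pool.Agent.H691R2.Cat

/-- The node with code `n` lies on the branch `c`. -/
def Br (c : ℕ → ℕ) (n : ℕ) : Prop := pfx c (dl n).length = dl n

theorem Br_encode (c : ℕ → ℕ) (m : ℕ) : Br c (encode (pfx c m)) := by
  unfold Br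
  rw [dl_encode, pfx_length]

theorem Br_encode_iff {c d : ℕ → ℕ} {m : ℕ} : Br d (encode (pfx c m)) ↔ pfx d m = pfx c m := by
  unfold Br
  rw [dl_encode, pfx_length]

/-- Incomparability of finite sequences. -/
def Inc (s t : List ℕ) : Bool :=
  decide (t.take s.length ≠ s) && decide (s.take t.length ≠ t)

theorem Inc_iff {s t : List ℕ} : Inc s t = true ↔ ¬ s <+: t ∧ ¬ t <+: s := by
  unfold Inc
  rw [Bool.and_eq_true, decide_eq_true_eq, decide_eq_true_eq, List.prefix_iff_eq_take,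
    List.prefix_iff_eq_take]
  constructor
  · rintro ⟨h1, h2⟩
    exact ⟨fun h => h1 h.symm, fun h => h2 h.symm⟩
  · rintro ⟨h1, h2⟩
    exact ⟨fun h => h1 h.symm, fun h => h2 h.symm⟩

/-- `S` has an antichain of size `k`. -/
def AC (k : ℕ) (S : Set ℕ) : Prop :=
  ∃ a : ℕ → ℕ, ∀ i < k, a i ∈ S ∧ ∀ j < i, Inc (dl (a j)) (dl (a i)) = true

/-- `C` codes `k` branches which cover `S` up to finitely many nodes. -/
def Cov (S : Set ℕ) (k : ℕ) (C : ℕ → ℕ) : Prop :=
  ∃ N, ∀ n ≥ N, n ∈ S → ∃ i < k, Br (col C i) n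

theorem mem_of_prefix {c : ℕ → ℕ} {s t : List ℕ} (hs : s <+: t) (ht : pfx c t.length = t) :
    pfx c s.length = s := by
  rw [List.prefix_iff_eq_take] at hs
  have hl : s.length ≤ t.length := by
    rw [hs]; simp
  rw [← pfx_take c hl, ht, ← hs]

theorem br_compare {c : ℕ → ℕ} {s t : List ℕ} (hs : pfx c s.length = s) (ht : pfx c t.length = t) :
    Inc s t = false := by
  rw [← Bool.not_eq_true, Inc_iff]
  rintro ⟨h1, h2⟩
  rcases Nat.le_total s.length t.length with h | h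
  · apply h1
    rw [List.prefix_iff_eq_take]
    rw [← ht, pfx_take c h, hs]
  · apply h2
    rw [List.prefix_iff_eq_take]
    rw [← hs, pfx_take c h, ht]

theorem eq_of_cover {c C : ℕ → ℕ} {k : ℕ}
    (h : ∀ M, ∃ m ≥ M, ∃ i < k, Br (col C i) (encode (pfx c m))) : ∃ i < k, col C i = c := by
  by_contra hcon
  push Not at hcon
  have h1 : ∀ i, ∃ m, i < k → col C i m ≠ c m := by
    intro i
    by_cases hi : i < k
    · obtain ⟨m, hm⟩ := Function.ne_iff.mp (hcon i hi)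
      exact ⟨m, fun _ => hm⟩
    · exact ⟨0, fun h => absurd h hi⟩
  choose mm hmm using h1
  obtain ⟨m, hm, i, hi, hB⟩ := h ((Finset.range k).sup mm + 1)
  rw [Br_encode_iff] at hB
  have h2 : mm i < m := by
    have := Finset.le_sup (f := mm) (Finset.mem_range.mpr hi)
    omega
  apply hmm i hi
  rw [← pfx_getD (col C i) h2 0, ← pfx_getD c h2 0, hB]

/-- An infinite set of nodes with bounded antichains meets some branch in an infinite set. -/
theorem exists_branch {S : Set ℕ} (hS : S.Infinite) {k : ℕ} (hk : ¬ AC k S) :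
    ∃ c : ℕ → ℕ, ∀ M, ∃ m ≥ M, encode (pfx c m) ∈ S := by
  let em := Set.Infinite.natEmbedding S hS
  let f : ℕ → ℕ := fun n => (em n : ℕ)
  have hfS : ∀ n, f n ∈ S := fun n => (em n).2
  have hfi : Function.Injective f := fun a b h => em.injective (Subtype.ext h)
  have hdl : ∀ n, encode (dl n) = n := fun n => Denumerable.encode_ofNat n
  have hdi : ∀ a b, dl (f a) = dl (f b) → a = b := by
    intro a b h
    apply hfi
    rw [← hdl (f a), ← hdl (f b), h]
  let r : ℕ → ℕ → Prop := fun a b => dl a <+: dl b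
  have : IsTrans ℕ r := ⟨fun a b c h1 h2 => List.IsPrefix.trans h1 h2⟩
  let r' : ℕ → ℕ → Prop := fun a b => dl b <+: dl a
  have : IsTrans ℕ r' := ⟨fun a b c h1 h2 => List.IsPrefix.trans h2 h1⟩
  have hlt : ∀ a b, a ≠ b → dl (f a) <+: dl (f b) → (dl (f a)).length < (dl (f b)).length := by
    intro a b hab h
    rcases Nat.lt_or_eq_of_le h.length_le with h1 | h1
    · exact h1
    · exact absurd (hdi a b (h.eq_of_length h1)) hab
  obtain ⟨g, hg | hg⟩ := exists_increasing_or_nonincreasing_subseq r f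
  · -- a chain
    let t : ℕ → List ℕ := fun m => dl (f (g m))
    have ht : ∀ m n, m < n → t m <+: t n := fun m n h => hg m n h
    have hlen : ∀ m n, m < n → (t m).length < (t n).length := fun m n h =>
      hlt _ _ (fun e => (Nat.ne_of_lt h) (g.injective e)) (ht m n h)
    have hge : ∀ m, m ≤ (t m).length := by
      intro m
      induction m with
      | zero => exact Nat.zero_le _
      | succ m ih => have := hlen m (m + 1) (Nat.lt_succ_self m); omega
    have hagree : ∀ m n i, i < (t m).length → i < (t n).length →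
        (t m).getD i 0 = (t n).getD i 0 := by
      have key : ∀ m n i, m < n → i < (t m).length → (t m).getD i 0 = (t n).getD i 0 := by
        intro m n i hmn hi
        have h1 := ht m n hmn
        rw [List.prefix_iff_eq_take] at h1
        rw [h1, List.getD_eq_getElem?_getD, List.getD_eq_getElem?_getD, List.getElem?_take_of_lt hi]
      intro m n i hm hn
      rcases Nat.lt_trichotomy m n with h | h | h
      · exact key m n i h hm
      · rw [h]
      · exact (key n m i h hn).symm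
    let c : ℕ → ℕ := fun i => (t (i + 1)).getD i 0
    have hc : ∀ m, pfx c (t m).length = t m := by
      intro m
      apply List.ext_getElem (by simp)
      intro i h1 h2
      have h3 : c i = (t m).getD i 0 := hagree (i + 1) m i (hge (i + 1)) h2
      rw [List.getD_eq_getElem _ _ h2] at h3
      simp [pfx, h3]
    refine ⟨c, fun M => ⟨(t M).length, hge M, ?_⟩⟩
    rw [hc M]
    change encode (dl (f (g M))) ∈ S
    rw [hdl]
    exact hfS _
  · exfalso
    obtain ⟨g', hg' | hg'⟩ := exists_increasing_or_nonincreasing_subseq r' (fun n => f (g n))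
    · -- lengths decrease forever
      have hdec : ∀ n, (dl (f (g (g' (n + 1))))).length < (dl (f (g (g' n)))).length := by
        intro n
        refine hlt _ _ (fun e => ?_) (hg' n (n + 1) (Nat.lt_succ_self n))
        exact absurd (g'.injective (g.injective e)) (Nat.succ_ne_self n)
      have hall : ∀ n, (dl (f (g (g' n)))).length + n ≤ (dl (f (g (g' 0)))).length := by
        intro n
        induction n with
        | zero => simp
        | succ n ih => have := hdec n; omega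
      have := hall ((dl (f (g (g' 0)))).length + 1)
      omega
    · apply hk
      refine ⟨fun i => f (g (g' i)), fun i _ => ⟨hfS _, fun j hj => ?_⟩⟩
      rw [Inc_iff]
      exact ⟨hg _ _ (g'.strictMono hj), hg' j i hj⟩

theorem exists_cov {k : ℕ} : ∀ {S : Set ℕ}, ¬ AC k S →
    ∃ k' C, (∀ i < k', ∀ M, ∃ m ≥ M, encode (pfx (col C i) m) ∈ S) ∧ Cov S k' C := by
  induction k with
  | zero =>
    intro S h
    exact absurd ⟨fun _ => 0, fun i hi => absurd hi (Nat.not_lt_zero i)⟩ h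
  | succ k ih =>
    intro S h
    by_cases hfin : S.Finite
    · obtain ⟨N, hN⟩ := hfin.bddAbove
      refine ⟨0, fun _ => 0, fun i hi => absurd hi (Nat.not_lt_zero i), N + 1, fun n hn hS => ?_⟩
      have := hN hS
      omega
    · obtain ⟨c, hc⟩ := exists_branch hfin h
      have h1 : ¬ AC k (S \ {n | Br c n}) := by
        rintro ⟨a, ha⟩
        apply h
        obtain ⟨m, hm, hmS⟩ := hc ((Finset.range k).sup (fun i => (dl (a i)).length) + 1)
        have hlen : ∀ j < k, (dl (a j)).length < m := by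
          intro j hj
          have := Finset.le_sup (f := fun i => (dl (a i)).length) (Finset.mem_range.mpr hj)
          omega
        refine ⟨fun i => if i < k then a i else encode (pfx c m), fun i hi => ?_⟩
        by_cases hik : i < k
        · simp only [hik, if_true]
          refine ⟨(ha i hik).1.1, fun j hj => ?_⟩
          have hjk : j < k := by omega
          simp only [hjk, if_true]
          exact (ha i hik).2 j hj
        · have hik' : i = k := by omega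
          simp only [hik, if_false]
          refine ⟨hmS, fun j hj => ?_⟩
          have hjk : j < k := by omega
          simp only [hjk, if_true]
          rw [dl_encode, Inc_iff]
          constructor
          · intro hp
            apply (ha j hjk).1.2
            exact mem_of_prefix hp (by rw [pfx_length])
          · intro hp
            have h2 := hp.length_le
            rw [pfx_length] at h2
            have := hlen j hjk
            omega
      obtain ⟨k', C, hC, N, hN⟩ := ih h1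
      refine ⟨k' + 1, fun n => if n.unpair.1 = 0 then c n.unpair.2 else
        C (Nat.pair (n.unpair.1 - 1) n.unpair.2), ?_, N, ?_⟩
      · intro i hi
        rcases Nat.eq_zero_or_pos i with h0 | hpos
        · have e : col (fun n => if n.unpair.1 = 0 then c n.unpair.2 else
              C (Nat.pair (n.unpair.1 - 1) n.unpair.2)) i = c := by
            funext n
            simp [col, h0]
          rw [e]
          exact hc
        · have e : col (fun n => if n.unpair.1 = 0 then c n.unpair.2 else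
              C (Nat.pair (n.unpair.1 - 1) n.unpair.2)) i = col C (i - 1) := by
            funext n
            simp [col, Nat.pos_iff_ne_zero.mp hpos]
          rw [e]
          intro M
          obtain ⟨m, hm, hmS⟩ := hC (i - 1) (by omega) M
          exact ⟨m, hm, hmS.1⟩
      · intro n hn hS
        by_cases hBr : Br c n
        · refine ⟨0, Nat.succ_pos _, ?_⟩
          have e : col (fun n => if n.unpair.1 = 0 then c n.unpair.2 else
              C (Nat.pair (n.unpair.1 - 1) n.unpair.2)) 0 = c := by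
            funext n
            simp [col]
          rw [e]
          exact hBr
        · obtain ⟨i, hi, hB⟩ := hN n hn ⟨hS, hBr⟩
          refine ⟨i + 1, by omega, ?_⟩
          have e : col (fun n => if n.unpair.1 = 0 then c n.unpair.2 else
              C (Nat.pair (n.unpair.1 - 1) n.unpair.2)) (i + 1) = col C i := by
            funext n
            simp [col]
          rw [e]
          exact hB

theorem Cov.not_AC {S : Set ℕ} {k : ℕ} {C : ℕ → ℕ} (h : Cov S k C) : ∃ K, ¬ AC K S := by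
  obtain ⟨N, hN⟩ := h
  refine ⟨N + k + 1, ?_⟩
  rintro ⟨a, ha⟩
  classical
  -- to each member of the antichain assign a small number or a branch
  have h1 : ∀ i : Fin (N + k + 1), ∃ b : Fin N ⊕ Fin k,
      (∀ x, b = Sum.inl x → a i = x) ∧ (∀ x : Fin k, b = Sum.inr x → Br (col C x) (a i)) := by
    intro i
    by_cases hi : a i < N
    · refine ⟨Sum.inl ⟨a i, hi⟩, fun x hx => ?_, fun x hx => ?_⟩
      · rw [← Sum.inl.inj hx]
      · cases hx
    · obtain ⟨j, hj, hB⟩ := hN (a i) (by omega) (ha i i.2).1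
      refine ⟨Sum.inr ⟨j, hj⟩, fun x hx => ?_, fun x hx => ?_⟩
      · cases hx
      · rw [← Sum.inr.inj hx]
        exact hB
  choose b hb1 hb2 using h1
  have hinj : Function.Injective b := by
    have key : ∀ i j : Fin (N + k + 1), (i : ℕ) < j → b i ≠ b j := by
      intro i j hij he
      have hI := (ha j j.2).2 i hij
      rcases hbi : b i with x | x
      · have e1 := hb1 i x hbi
        have e2 := hb1 j x (by rw [← he, hbi])
        rw [e1, e2] at hI
        rw [Inc_iff] at hI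
        exact hI.1 (List.prefix_rfl)
      · have e1 := hb2 i x hbi
        have e2 := hb2 j x (by rw [← he, hbi])
        rw [br_compare e1 e2] at hI
        exact absurd hI (by simp)
    intro i j he
    rcases Nat.lt_trichotomy (i : ℕ) j with h | h | h
    · exact absurd he (key i j h)
    · exact Fin.ext h
    · exact absurd he.symm (key j i h)
  have hcard := Fintype.card_le_of_injective b hinj
  simp only [Fintype.card_fin, Fintype.card_sum] at hcard
  omega

theorem Cov.mem {S : Set ℕ} {k : ℕ} {C c : ℕ → ℕ} (h : Cov S k C)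
    (hc : ∀ M, ∃ m ≥ M, encode (pfx c m) ∈ S) : ∃ i < k, col C i = c := by
  obtain ⟨N, hN⟩ := h
  apply eq_of_cover
  intro M
  obtain ⟨m, hm, hmS⟩ := hc (max M N)
  refine ⟨m, le_trans (le_max_left _ _) hm, hN _ ?_ hmS⟩
  have h1 : (pfx c m).length ≤ encode (pfx c m) := length_le_encode _
  rw [pfx_length] at h1
  exact le_trans (le_trans (le_max_right _ _) hm) h1

/-! ### The equivalence relation of a set of branches -/

/-- `y` and `y'` agree up to finitely many nodes outside finitely many branches in `D`. -/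
def Fr (D : (ℕ → ℕ) → Prop) (y y' : ℕ → ℕ) : Prop :=
  ∃ k C, (∀ i < k, D (col C i)) ∧ Cov {n | y n ≠ y' n} k C

theorem Fr_not_iff {D : (ℕ → ℕ) → Prop} {y y' : ℕ → ℕ} :
    ¬ Fr D y y' ↔ (∀ k, AC k {n | y n ≠ y' n}) ∨
      ∃ c, ¬ D c ∧ ∀ M, ∃ m ≥ M, encode (pfx c m) ∈ {n | y n ≠ y' n} := by
  constructor
  · intro h
    by_contra hcon
    push Not at hcon
    obtain ⟨⟨k, hk⟩, hD⟩ := hcon
    obtain ⟨k', C, hC, hcov⟩ := exists_cov hk
    apply h
    refine ⟨k', C, fun i hi => ?_, hcov⟩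
    by_contra hDi
    obtain ⟨M, hM⟩ := hD _ hDi
    obtain ⟨m, hm, hmS⟩ := hC i hi M
    exact hM m hm hmS
  · rintro (h | ⟨c, hc, hinf⟩) ⟨k, C, hD, hcov⟩
    · obtain ⟨K, hK⟩ := hcov.not_AC
      exact hK (h K)
    · obtain ⟨i, hi, he⟩ := hcov.mem hinf
      exact hc (he ▸ hD i hi)

theorem Fr_equiv (D : (ℕ → ℕ) → Prop) : Equivalence (Fr D) := by
  refine ⟨fun y => ?_, fun {y y'} h => ?_, fun {x y z} h h' => ?_⟩
  · exact ⟨0, fun _ => 0, fun i hi => absurd hi (Nat.not_lt_zero i), 0, fun n _ hn => absurd rfl hn⟩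
  · obtain ⟨k, C, hD, N, hN⟩ := h
    exact ⟨k, C, hD, N, fun n hn hS => hN n hn (Ne.symm hS)⟩
  · obtain ⟨k, C, hD, N, hN⟩ := h
    obtain ⟨k', C', hD', N', hN'⟩ := h'
    let E : ℕ → ℕ := fun n => if n.unpair.1 < k then C n else C' (Nat.pair (n.unpair.1 - k) n.unpair.2)
    have e1 : ∀ i < k, col E i = col C i := by
      intro i hi
      funext n
      simp [col, E, hi]
    have e2 : ∀ i, ¬ i < k → col E i = col C' (i - k) := by
      intro i hi
      funext n
      simp [col, E, hi]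
    refine ⟨k + k', E, fun i hi => ?_, max N N', fun n hn hS => ?_⟩
    · by_cases hik : i < k
      · rw [e1 i hik]; exact hD i hik
      · rw [e2 i hik]; exact hD' _ (by omega)
    · have hS' : x n ≠ y n ∨ y n ≠ z n := by
        by_contra hcon
        push Not at hcon
        exact hS (hcon.1.trans hcon.2)
      rcases hS' with h1 | h1
      · obtain ⟨i, hi, hB⟩ := hN n (le_trans (le_max_left _ _) hn) h1
        exact ⟨i, by omega, by rw [e1 i hi]; exact hB⟩
      · obtain ⟨i, hi, hB⟩ := hN' n (le_trans (le_max_right _ _) hn) h1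
        refine ⟨k + i, by omega, ?_⟩
        rw [e2 _ (by omega), Nat.add_sub_cancel_left]
        exact hB

variable {α : Type} [Rep α]

instance (c : ℕ → ℕ) (n : ℕ) : Decidable (Br c n) :=
  inferInstanceAs (Decidable (pfx c (dl n).length = dl n))

theorem CN_Br {c : α → ℕ → ℕ} {n : α → ℕ} (hc : GF c) (hn : CN n) :
    CN (fun a => decide (Br (c a) (n a))) := by
  have h1 : CN (fun a => dl (n a)) := CN.dl hn
  exact CN.prim2 (f := fun a b : List ℕ => decide (a = b)) Primrec.eq.decide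
    (CN.pfx hc (CN.prim Primrec.list_length h1)) h1

theorem CN_ne {y y' : α → ℕ → ℕ} {n : α → ℕ} (hy : GF y) (hy' : GF y') (hn : CN n) :
    CN (fun a => decide (y a (n a) ≠ y' a (n a))) :=
  CN.prim2 (f := fun a b : ℕ => decide (a ≠ b)) Primrec.eq.not.decide (CN.app hy hn)
    (CN.app hy' hn)

theorem CN_lt {m n : α → ℕ} (hm : CN m) (hn : CN n) : CN (fun a => decide (m a < n a)) :=
  CN.prim2 (f := fun a b : ℕ => decide (a < b)) Primrec.nat_lt.decide hm hn

theorem CN_le {m n : α → ℕ} (hm : CN m) (hn : CN n) : CN (fun a => decide (m a ≤ n a)) :=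
  CN.prim2 (f := fun a b : ℕ => decide (a ≤ b)) Primrec.nat_le.decide hm hn

theorem S11_Fr {D : (ℕ → ℕ) → Prop} (hD : S11 D) :
    S11 (fun p : (ℕ → ℕ) × (ℕ → ℕ) => Fr D p.1 p.2) := by
  refine S11.exN (P := fun p : ((ℕ → ℕ) × (ℕ → ℕ)) × ℕ => ∃ C, (∀ i < p.2, D (col C i)) ∧
    Cov {n | p.1.1 n ≠ p.1.2 n} p.2 C) ?_
  refine S11.exR (P := fun q : (((ℕ → ℕ) × (ℕ → ℕ)) × ℕ) × (ℕ → ℕ) =>
    (∀ i < q.1.2, D (col q.2 i)) ∧ Cov {n | q.1.1.1 n ≠ q.1.1.2 n} q.1.2 q.2) ?_
  refine S11.and ?_ ?_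
  · refine S11.allN (P := fun r : ((((ℕ → ℕ) × (ℕ → ℕ)) × ℕ) × (ℕ → ℕ)) × ℕ =>
      r.2 < r.1.1.2 → D (col r.1.2 r.2)) ?_
    have h1 : CN (fun r : ((((ℕ → ℕ) × (ℕ → ℕ)) × ℕ) × (ℕ → ℕ)) × ℕ =>
        decide (r.2 < r.1.1.2)) :=
      CN_lt (CN.nat GF.snd) (CN.nat (GF.snd.comp (GF.fst.comp GF.fst)))
    refine (S11.imp_dec h1 (hD.comp (F := fun r : ((((ℕ → ℕ) × (ℕ → ℕ)) × ℕ) × (ℕ → ℕ)) × ℕ =>
      col r.1.2 r.2) (GF.col (GF.snd.comp GF.fst) (CN.nat GF.snd)))).of_iff fun r => by simp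
  · refine S11.exN (P := fun r : ((((ℕ → ℕ) × (ℕ → ℕ)) × ℕ) × (ℕ → ℕ)) × ℕ =>
      ∀ n ≥ r.2, n ∈ {n | r.1.1.1.1 n ≠ r.1.1.1.2 n} → ∃ i < r.1.1.2, Br (col r.1.2 i) n) ?_
    refine S11.allN (P := fun s : (((((ℕ → ℕ) × (ℕ → ℕ)) × ℕ) × (ℕ → ℕ)) × ℕ) × ℕ =>
      s.2 ≥ s.1.2 → s.2 ∈ {n | s.1.1.1.1.1 n ≠ s.1.1.1.1.2 n} →
        ∃ i < s.1.1.1.2, Br (col s.1.1.2 i) s.2) ?_
    have g1 : GF (fun s : (((((ℕ → ℕ) × (ℕ → ℕ)) × ℕ) × (ℕ → ℕ)) × ℕ) × ℕ => s.1.1) :=
      GF.fst.comp GF.fst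
    have g2 : GF (fun s : (((((ℕ → ℕ) × (ℕ → ℕ)) × ℕ) × (ℕ → ℕ)) × ℕ) × ℕ => s.1.1.1) :=
      GF.fst.comp g1
    have g3 : GF (fun s : (((((ℕ → ℕ) × (ℕ → ℕ)) × ℕ) × (ℕ → ℕ)) × ℕ) × ℕ => s.1.1.1.1) :=
      GF.fst.comp g2
    have c1 : CN (fun s : (((((ℕ → ℕ) × (ℕ → ℕ)) × ℕ) × (ℕ → ℕ)) × ℕ) × ℕ =>
        decide (s.1.2 ≤ s.2)) := CN_le (CN.nat (GF.snd.comp GF.fst)) (CN.nat GF.snd)
    have c2 : CN (fun s : (((((ℕ → ℕ) × (ℕ → ℕ)) × ℕ) × (ℕ → ℕ)) × ℕ) × ℕ =>
        decide (s.1.1.1.1.1 s.2 ≠ s.1.1.1.1.2 s.2)) :=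
      CN_ne (GF.fst.comp g3) (GF.snd.comp g3) (CN.nat GF.snd)
    have h3 : S11 (fun s : (((((ℕ → ℕ) × (ℕ → ℕ)) × ℕ) × (ℕ → ℕ)) × ℕ) × ℕ =>
        ∃ i < s.1.1.1.2, Br (col s.1.1.2 i) s.2) := by
      refine S11.exN (P := fun t : ((((((ℕ → ℕ) × (ℕ → ℕ)) × ℕ) × (ℕ → ℕ)) × ℕ) × ℕ) × ℕ =>
        t.2 < t.1.1.1.1.2 ∧ Br (col t.1.1.1.2 t.2) t.1.2) ?_
      have k1 : GF (fun t : ((((((ℕ → ℕ) × (ℕ → ℕ)) × ℕ) × (ℕ → ℕ)) × ℕ) × ℕ) × ℕ => t.1.1) :=
        GF.fst.comp GF.fst
      have k2 : GF (fun t : ((((((ℕ → ℕ) × (ℕ → ℕ)) × ℕ) × (ℕ → ℕ)) × ℕ) × ℕ) × ℕ => t.1.1.1) :=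
        GF.fst.comp k1
      have k3 : GF (fun t : ((((((ℕ → ℕ) × (ℕ → ℕ)) × ℕ) × (ℕ → ℕ)) × ℕ) × ℕ) × ℕ =>
        t.1.1.1.1) := GF.fst.comp k2
      refine S11.and ?_ ?_
      · exact (S11.dec (CN_lt (CN.nat GF.snd) (CN.nat (GF.snd.comp k3)))).of_iff
          fun t => by simp
      · exact (S11.dec (CN_Br (c := fun t : ((((((ℕ → ℕ) × (ℕ → ℕ)) × ℕ) × (ℕ → ℕ)) × ℕ) × ℕ) × ℕ
          => col t.1.1.1.2 t.2) (GF.col (GF.snd.comp k2) (CN.nat GF.snd))
          (CN.nat (GF.snd.comp GF.fst)))).of_iff fun t => by simp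
    refine (S11.imp_dec c1 (S11.imp_dec c2 h3)).of_iff fun s => ?_
    simp only [decide_eq_true_eq, Set.mem_ofPred_eq, ge_iff_le]

theorem S11_not_Fr {D : (ℕ → ℕ) → Prop} (hD : S11 (fun c => ¬ D c)) :
    S11 (fun p : (ℕ → ℕ) × (ℕ → ℕ) => ¬ Fr D p.1 p.2) := by
  refine S11.of_iff (S11.or ?_ ?_) (fun p => Fr_not_iff)
  · refine S11.allN (P := fun p : ((ℕ → ℕ) × (ℕ → ℕ)) × ℕ => AC p.2 {n | p.1.1 n ≠ p.1.2 n}) ?_
    refine S11.exR (P := fun q : (((ℕ → ℕ) × (ℕ → ℕ)) × ℕ) × (ℕ → ℕ) => ∀ i < q.1.2,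
      q.2 i ∈ {n | q.1.1.1 n ≠ q.1.1.2 n} ∧ ∀ j < i, Inc (dl (q.2 j)) (dl (q.2 i)) = true) ?_
    refine S11.allN (P := fun r : ((((ℕ → ℕ) × (ℕ → ℕ)) × ℕ) × (ℕ → ℕ)) × ℕ =>
      r.2 < r.1.1.2 → r.1.2 r.2 ∈ {n | r.1.1.1.1 n ≠ r.1.1.1.2 n} ∧
        ∀ j < r.2, Inc (dl (r.1.2 j)) (dl (r.1.2 r.2)) = true) ?_
    have g1 : GF (fun r : ((((ℕ → ℕ) × (ℕ → ℕ)) × ℕ) × (ℕ → ℕ)) × ℕ => r.1.1) :=
      GF.fst.comp GF.fst
    have g2 : GF (fun r : ((((ℕ → ℕ) × (ℕ → ℕ)) × ℕ) × (ℕ → ℕ)) × ℕ => r.1.1.1) :=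
      GF.fst.comp g1
    have c1 : CN (fun r : ((((ℕ → ℕ) × (ℕ → ℕ)) × ℕ) × (ℕ → ℕ)) × ℕ => decide (r.2 < r.1.1.2)) :=
      CN_lt (CN.nat GF.snd) (CN.nat (GF.snd.comp g1))
    have c2 : CN (fun r : ((((ℕ → ℕ) × (ℕ → ℕ)) × ℕ) × (ℕ → ℕ)) × ℕ =>
        decide (r.1.1.1.1 (r.1.2 r.2) ≠ r.1.1.1.2 (r.1.2 r.2))) :=
      CN_ne (GF.fst.comp g2) (GF.snd.comp g2) (CN.app (GF.snd.comp GF.fst) (CN.nat GF.snd))
    have h3 : S11 (fun r : ((((ℕ → ℕ) × (ℕ → ℕ)) × ℕ) × (ℕ → ℕ)) × ℕ =>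
        ∀ j < r.2, Inc (dl (r.1.2 j)) (dl (r.1.2 r.2)) = true) := by
      refine S11.allN (P := fun s : (((((ℕ → ℕ) × (ℕ → ℕ)) × ℕ) × (ℕ → ℕ)) × ℕ) × ℕ =>
        s.2 < s.1.2 → Inc (dl (s.1.1.2 s.2)) (dl (s.1.1.2 s.1.2)) = true) ?_
      have k1 : GF (fun s : (((((ℕ → ℕ) × (ℕ → ℕ)) × ℕ) × (ℕ → ℕ)) × ℕ) × ℕ => s.1.1) :=
        GF.fst.comp GF.fst
      have hInc : Primrec₂ Inc := by
        have ht : Primrec fun p : List ℕ × List ℕ => decide (p.2.take p.1.length ≠ p.1) :=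
          Primrec.eq.not.decide.comp (Primrec.list_take.comp
            (Primrec.list_length.comp Primrec.fst) Primrec.snd) Primrec.fst
        have ht' : Primrec fun p : List ℕ × List ℕ => decide (p.1.take p.2.length ≠ p.2) :=
          Primrec.eq.not.decide.comp (Primrec.list_take.comp
            (Primrec.list_length.comp Primrec.snd) Primrec.fst) Primrec.snd
        exact Primrec.and.comp ht ht'
      refine (S11.imp_dec (CN_lt (CN.nat GF.snd) (CN.nat (GF.snd.comp GF.fst)))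
        (S11.dec (CN.prim2 hInc (CN.dl (CN.app (GF.snd.comp k1) (CN.nat GF.snd)))
          (CN.dl (CN.app (GF.snd.comp k1) (CN.nat (GF.snd.comp GF.fst))))))).of_iff fun s => ?_
      simp only [decide_eq_true_eq]
    refine (S11.imp_dec c1 (S11.and (S11.dec c2) h3)).of_iff fun r => ?_
    simp only [decide_eq_true_eq, Set.mem_ofPred_eq]
  · refine S11.exR (P := fun q : ((ℕ → ℕ) × (ℕ → ℕ)) × (ℕ → ℕ) => ¬ D q.2 ∧
      ∀ M, ∃ m ≥ M, encode (pfx q.2 m) ∈ {n | q.1.1 n ≠ q.1.2 n}) ?_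
    refine S11.and (hD.comp GF.snd) ?_
    refine S11.allN (P := fun r : (((ℕ → ℕ) × (ℕ → ℕ)) × (ℕ → ℕ)) × ℕ =>
      ∃ m ≥ r.2, encode (pfx r.1.2 m) ∈ {n | r.1.1.1 n ≠ r.1.1.2 n}) ?_
    refine S11.exN (P := fun s : ((((ℕ → ℕ) × (ℕ → ℕ)) × (ℕ → ℕ)) × ℕ) × ℕ =>
      s.2 ≥ s.1.2 ∧ encode (pfx s.1.1.2 s.2) ∈ {n | s.1.1.1.1 n ≠ s.1.1.1.2 n}) ?_
    have g1 : GF (fun s : ((((ℕ → ℕ) × (ℕ → ℕ)) × (ℕ → ℕ)) × ℕ) × ℕ => s.1.1) :=
      GF.fst.comp GF.fst
    have g2 : GF (fun s : ((((ℕ → ℕ) × (ℕ → ℕ)) × (ℕ → ℕ)) × ℕ) × ℕ => s.1.1.1) :=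
      GF.fst.comp g1
    refine S11.and ?_ ?_
    · exact (S11.dec (CN_le (CN.nat (GF.snd.comp GF.fst)) (CN.nat GF.snd))).of_iff
        fun s => by simp
    · refine (S11.dec (CN_ne (GF.fst.comp g2) (GF.snd.comp g2)
        (n := fun s : ((((ℕ → ℕ) × (ℕ → ℕ)) × (ℕ → ℕ)) × ℕ) × ℕ => encode (pfx s.1.1.2 s.2))
        (CN.prim Primrec.encode (CN.pfx (GF.snd.comp g1) (CN.nat GF.snd))))).of_iff fun s => ?_
      simp only [decide_eq_true_eq, Set.mem_ofPred_eq]

end Pool.Agent.H691R2.Branch
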