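import Pool.Agent.H691R2.Cyl

set_option autoImplicit false

/-!
The category quantifier preserves lightface Sigma-1-1 predicates.
-/

namespace Pool.Agent.H691R2.Cat

open Encodable Pool.Agent.Helper750.Eff Filter Topology Pool.Agent.H691R2.Cyl

/-- A family `W` of pairs of finite sequences which witnesses that for comeagerly many `y` there
is `w` with `P (pfx y n) (pfx w n)` for all `n`. -/
def Good (P : List ℕ → List ℕ → Prop) (W : List ℕ → List ℕ → Prop) : Prop :=
  (∀ u, ∃ v, W [] (u ++ v)) ∧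
    (∀ s u, W s u → ∀ v, ∃ n v', W (s ++ [n]) (u ++ v ++ v')) ∧
    (∀ s u, W s u → s.length ≤ u.length ∧ P (u.take s.length) s)

theorem Good.sound {P W : List ℕ → List ℕ → Prop} (h : Good P W) :
    ∀ᶠ y in residual (ℕ → ℕ), ∃ w : ℕ → ℕ, ∀ n, P (pfx y n) (pfx w n) := by
  obtain ⟨h1, h2, h3⟩ := h
  have e1 : ∀ᶠ y in residual (ℕ → ℕ), ∃ v, y ∈ cyl v ∧ W [] v := by
    have ho : IsOpen (⋃ v ∈ {v | W [] v}, cyl v) := isOpen_biUnion fun v _ => isOpen_cyl v
    have hd : Dense (⋃ v ∈ {v | W [] v}, cyl v) := by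
      apply dense_of_cyl
      intro u
      obtain ⟨v, hv⟩ := h1 u
      exact ⟨pt (u ++ v), cyl_append_subset _ _ (pt_mem _),
        Set.mem_biUnion (show u ++ v ∈ {v | W [] v} from hv) (pt_mem _)⟩
    filter_upwards [residual_of_dense_open ho hd] with y hy
    obtain ⟨v, hv, hyv⟩ := Set.mem_iUnion₂.mp hy
    exact ⟨v, hyv, hv⟩
  have e2 : ∀ᶠ y in residual (ℕ → ℕ), ∀ p : List ℕ × List ℕ, W p.1 p.2 → y ∈ cyl p.2 →
      ∃ n u', y ∈ cyl u' ∧ W (p.1 ++ [n]) u' := by
    rw [eventually_countable_forall]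
    rintro ⟨s, u⟩
    by_cases hW : W s u
    · let O : Set (ℕ → ℕ) := (cyl u)ᶜ ∪ ⋃ q ∈ {q : ℕ × List ℕ | W (s ++ [q.1]) q.2}, cyl q.2
      have hcl : IsClosed (cyl u) := by
        have h : cyl u = Set.pi (↑(Finset.range u.length)) (fun i => {u.getD i 0}) := by
          ext y
          rw [mem_cyl_iff]
          simp [Set.mem_pi]
        rw [h]
        exact isClosed_set_pi (fun _ _ => isClosed_discrete _)
      have ho : IsOpen O := hcl.isOpen_compl.union (isOpen_biUnion fun v _ => isOpen_cyl _)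
      have hd : Dense O := by
        apply dense_of_cyl
        intro t
        by_cases ht : ∃ y ∈ cyl t, y ∉ cyl u
        · obtain ⟨y, hy, hyu⟩ := ht
          exact ⟨y, hy, Or.inl hyu⟩
        · push Not at ht
          by_cases hl : u.length ≤ t.length
          · obtain ⟨v, rfl⟩ := exists_append (ht _ (pt_mem t)) (pt_mem t) hl
            obtain ⟨n, v', hn⟩ := h2 s u hW v
            refine ⟨pt (u ++ v ++ v'), cyl_append_subset _ _ (pt_mem _), Or.inr ?_⟩
            exact Set.mem_biUnion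
              (show (n, u ++ v ++ v') ∈ {q : ℕ × List ℕ | W (s ++ [q.1]) q.2} from hn) (pt_mem _)
          · obtain ⟨v, hv⟩ := exists_append (pt_mem t) (ht _ (pt_mem t)) (by omega)
            obtain ⟨n, v', hn⟩ := h2 s u hW []
            refine ⟨pt (u ++ [] ++ v'), ?_, Or.inr ?_⟩
            · have h3 := cyl_append_subset _ _ (cyl_append_subset _ _ (pt_mem (u ++ [] ++ v')))
              rw [hv] at h3 ⊢
              exact cyl_append_subset _ _ h3
            · exact Set.mem_biUnion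
                (show (n, u ++ [] ++ v') ∈ {q : ℕ × List ℕ | W (s ++ [q.1]) q.2} from hn)
                (pt_mem _)
      filter_upwards [residual_of_dense_open ho hd] with y hy _ hyu
      rcases hy with hy | hy
      · exact absurd hyu hy
      · obtain ⟨⟨n, u'⟩, hn, hyn⟩ := Set.mem_iUnion₂.mp hy
        exact ⟨n, u', hyn, hn⟩
    · exact Eventually.of_forall fun y hy => absurd hy hW
  filter_upwards [e1, e2] with y hy1 hy2
  obtain ⟨v, hyv, hv⟩ := hy1
  let X := {p : List ℕ × List ℕ // W p.1 p.2 ∧ y ∈ cyl p.2}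
  choose nx ux hux hnx using fun p : X => hy2 p.1 p.2.1 p.2.2
  let f : ℕ → X := fun k => Nat.rec ⟨([], v), hv, hyv⟩
    (fun _ p => ⟨(p.1.1 ++ [nx p], ux p), hnx p, hux p⟩) k
  have hfs : ∀ k, (f (k + 1)).1.1 = (f k).1.1 ++ [nx (f k)] := fun k => rfl
  have hp : ∀ k, pfx (fun k => nx (f k)) k = (f k).1.1 := by
    intro k
    induction k with
    | zero => rfl
    | succ k ih => rw [pfx_succ, ih, hfs]
  refine ⟨fun k => nx (f k), fun n => ?_⟩
  obtain ⟨hl, hP⟩ := h3 _ _ (f n).2.1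
  have hlen : (f n).1.1.length = n := by rw [← hp n, pfx_length]
  rw [hlen] at hl hP
  rw [take_of_mem (f n).2.2 hl] at hP
  rw [hp n]
  exact hP

theorem Good.complete {P : List ℕ → List ℕ → Prop}
    (h : ∀ᶠ y in residual (ℕ → ℕ), ∃ w : ℕ → ℕ, ∀ n, P (pfx y n) (pfx w n)) :
    ∃ W, Good P W := by
  let B : List ℕ → Set (ℕ → ℕ) := fun s =>
    {y | ∃ w : ℕ → ℕ, pfx w s.length = s ∧ ∀ n, P (pfx y n) (pfx w n)}
  have hB : ∀ s, B s ⊆ ⋃ n, B (s ++ [n]) := by
    rintro s y ⟨w, hw, hP⟩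
    refine Set.mem_iUnion.mpr ⟨w s.length, w, ?_, hP⟩
    rw [List.length_append, List.length_singleton, pfx_succ, hw]
  refine ⟨fun s u => s.length ≤ u.length ∧ ∀ v, ¬ IsMeagre (B s ∩ cyl (u ++ v)), ?_, ?_, ?_⟩
  · intro u
    refine ⟨[], Nat.zero_le _, fun v hm => ?_⟩
    have h1 : IsMeagre (B [])ᶜ := by
      unfold IsMeagre
      rw [compl_compl]
      refine mem_of_superset h ?_
      rintro y ⟨w, hw⟩
      exact ⟨w, rfl, hw⟩
    apply not_meagre_cyl (u ++ [] ++ v)
    refine (hm.union h1).mono ?_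
    intro y hy
    by_cases hyB : y ∈ B []
    · exact Or.inl ⟨hyB, hy⟩
    · exact Or.inr hyB
  · rintro s u ⟨hl, hW⟩ v
    have h1 : ∃ n, ¬ IsMeagre (B (s ++ [n]) ∩ cyl (u ++ v)) := by
      by_contra hcon
      push Not at hcon
      apply hW v
      refine (isMeagre_iUnion hcon).mono ?_
      rintro y ⟨hy1, hy2⟩
      obtain ⟨n, hn⟩ := Set.mem_iUnion.mp (hB s hy1)
      exact Set.mem_iUnion.mpr ⟨n, hn, hy2⟩
    obtain ⟨n, hn⟩ := h1
    obtain ⟨v', hv'⟩ := banach hn
    refine ⟨n, v' ++ [0], ?_, fun w => ?_⟩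
    · simp only [List.length_append, List.length_singleton]
      omega
    · have h2 := hv' ([0] ++ w)
      have e : u ++ v ++ (v' ++ [0]) ++ w = u ++ v ++ v' ++ ([0] ++ w) := by
        simp only [List.append_assoc]
      rw [e]
      exact h2
  · rintro s u ⟨hl, hW⟩
    refine ⟨hl, ?_⟩
    obtain ⟨y, ⟨w, hw, hP⟩, hy⟩ := nonempty_of_not_isMeagre (hW [])
    rw [List.append_nil] at hy
    have h1 := hP s.length
    rw [hw] at h1
    rw [take_of_mem hy hl]
    exact h1

variable {α : Type} [Rep α]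

theorem CN_ap {δ : Type} [Primcodable δ] {R : Rep.D α × ℕ → δ} (hR : Primrec R) {g : ℕ → ℕ}
    (hg : Primrec g) : CN (fun p : α × ℕ => R (Rep.ap p.1 (g p.2), p.2)) := by
  refine ⟨fun p : (Rep.D α × ℕ) × ℕ =>
    if g p.1.2 ≤ p.2 then some (R (Rep.tr p.1.1 (g p.1.2), p.1.2)) else none, ?_, ?_, ?_⟩
  · have hk : Primrec fun p : (Rep.D α × ℕ) × ℕ => p.1.2 := Primrec.snd.comp Primrec.fst
    refine Primrec.ite (Primrec.nat_le.comp (hg.comp hk) Primrec.snd) ?_ (Primrec.const none)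
    exact Primrec.option_some.comp (hR.comp (Primrec.pair
      (tr_prim' (Primrec.fst.comp Primrec.fst) (hg.comp hk)) hk))
  · rintro ⟨a, k⟩ m d h
    change (if g k ≤ m then some (R (Rep.tr (Rep.ap a m) (g k), k)) else none) = some d at h
    split_ifs at h with h1
    rw [Rep.tr_ap _ _ _ h1] at h
    exact (Option.some.inj h).symm
  · rintro ⟨a, k⟩
    refine ⟨g k, ?_⟩
    change (if g k ≤ g k then some (R (Rep.tr (Rep.ap a (g k)) (g k), k)) else none) = _
    rw [if_pos le_rfl, Rep.tr_ap _ _ _ le_rfl]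

/-- decoding of lists -/
def dl (n : ℕ) : List ℕ := Denumerable.ofNat (List ℕ) n

@[simp] theorem dl_encode (l : List ℕ) : dl (encode l) = l := Denumerable.ofNat_encode l

theorem dl_prim : Primrec dl := Primrec.ofNat (List ℕ)

theorem CN.dl {F : α → ℕ} (hF : CN F) : CN (fun a => dl (F a)) := CN.prim dl_prim hF

theorem S11.allL {P : α → List ℕ → Prop} (hP : S11 (fun p : α × ℕ => P p.1 (dl p.2))) :
    S11 (fun a => ∀ l, P a l) := by
  refine (S11.allN hP).of_iff fun a => ?_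
  exact ⟨fun h k => h _, fun h l => by simpa using h (encode l)⟩

theorem S11.exL {P : α → List ℕ → Prop} (hP : S11 (fun p : α × ℕ => P p.1 (dl p.2))) :
    S11 (fun a => ∃ l, P a l) := by
  refine (S11.exN hP).of_iff fun a => ?_
  exact ⟨fun ⟨l, h⟩ => ⟨encode l, by simpa using h⟩, fun ⟨k, h⟩ => ⟨_, h⟩⟩

/-- The code of a pair of lists. -/
def pc (s u : List ℕ) : ℕ := Nat.pair (encode s) (encode u)

theorem pc_prim : Primrec₂ pc :=
  Primrec₂.natPair.comp (Primrec.encode.comp Primrec.fst) (Primrec.encode.comp Primrec.snd)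

theorem S11.imp_dec {F : α → Bool} {Q : α → Prop} (hF : CN F) (hQ : S11 Q) :
    S11 (fun a => F a = true → Q a) := by
  have h : S11 (fun a => (!(F a)) = true ∨ Q a) :=
    (S11.dec (CN.prim Primrec.not hF)).or hQ
  refine h.of_iff fun a => ?_
  cases F a <;> simp

/-- `ℕ → ℕ` codes `W`. -/
def wof (x : ℕ → ℕ) (s u : List ℕ) : Prop := decide (x (pc s u) = 0) = true

theorem CN_w {x : α → ℕ → ℕ} {s u : α → List ℕ} (hx : GF x) (hs : CN s) (hu : CN u) :
    CN (fun a => decide (x a (pc (s a) (u a)) = 0)) := by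
  have h1 : CN (fun a => x a (pc (s a) (u a))) := CN.app hx (CN.prim2 pc_prim hs hu)
  exact CN.prim (f := fun n : ℕ => decide (n = 0))
    (Primrec.eq.decide.comp Primrec.id (Primrec.const 0)) h1

/-- The category quantifier preserves Sigma-1-1 predicates. -/
theorem S11.cat {Z : α × (ℕ → ℕ) → Prop} (hZ : S11 Z) :
    S11 (fun a => ∀ᶠ y in residual (ℕ → ℕ), Z (a, y)) := by
  obtain ⟨Q, ⟨R, hR, hQ⟩, hZQ⟩ := hZ
  let P : α → List ℕ → List ℕ → Prop := fun a u s =>
    R (((Rep.ap a s.length, u), s), s.length) = true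
  -- the predicate in terms of good families
  have key : ∀ a, (∀ᶠ y in residual (ℕ → ℕ), Z (a, y)) ↔ ∃ x : ℕ → ℕ, Good (P a) (wof x) := by
    intro a
    have h0 : ∀ y, Z (a, y) ↔ ∃ w : ℕ → ℕ, ∀ n, P a (pfx y n) (pfx w n) := by
      intro y
      rw [hZQ]
      refine exists_congr fun w => ?_
      rw [hQ]
      refine forall_congr' fun n => ?_
      change R (((Rep.ap a n, pfx y n), pfx w n), n) = true ↔
        R (((Rep.ap a (pfx w n).length, pfx y n), pfx w n), (pfx w n).length) = true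
      rw [pfx_length]
    simp only [h0]
    constructor
    · intro h
      obtain ⟨W, hW⟩ := Good.complete h
      classical
      refine ⟨fun n => if W (dl n.unpair.1) (dl n.unpair.2) then 0 else 1, ?_⟩
      have e : wof (fun n => if W (dl n.unpair.1) (dl n.unpair.2) then 0 else 1) = W := by
        funext s u
        unfold wof pc
        simp only [Nat.unpair_pair, dl_encode, decide_eq_true_eq, eq_iff_iff]
        by_cases h : W s u
        · simp [h]
        · simp [h]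
      rw [e]
      exact hW
    · rintro ⟨x, hx⟩
      exact hx.sound
  refine S11.of_iff ?_ key
  refine S11.exR (P := fun b : α × (ℕ → ℕ) => Good (P b.1) (wof b.2)) ?_
  refine S11.and ?_ (S11.and ?_ ?_)
  · -- first clause
    refine S11.allL ?_
    refine S11.exL (P := fun (p : (α × (ℕ → ℕ)) × ℕ) v => wof p.1.2 [] (dl p.2 ++ v)) ?_
    refine S11.dec (CN_w (GF.snd.comp (GF.fst.comp GF.fst)) (CN.const []) ?_)
    exact CN.prim2 (f := fun a b : List ℕ => a ++ b) Primrec.list_append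
      (CN.dl (CN.nat (GF.snd.comp GF.fst))) (CN.dl (CN.nat GF.snd))
  · -- second clause
    refine S11.allL ?_
    refine S11.allL (P := fun (p : (α × (ℕ → ℕ)) × ℕ) u => wof p.1.2 (dl p.2) u →
      ∀ v, ∃ n v', wof p.1.2 (dl p.2 ++ [n]) (u ++ v ++ v')) ?_
    refine S11.imp_dec (F := fun q : ((α × (ℕ → ℕ)) × ℕ) × ℕ =>
      decide (q.1.1.2 (pc (dl q.1.2) (dl q.2)) = 0)) ?_ ?_
    · exact CN_w (x := fun q : ((α × (ℕ → ℕ)) × ℕ) × ℕ => q.1.1.2)
        (s := fun q => dl q.1.2) (u := fun q => dl q.2)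
        (GF.snd.comp (GF.fst.comp GF.fst)) (CN.dl (CN.nat (GF.snd.comp GF.fst)))
        (CN.dl (CN.nat GF.snd))
    · refine S11.allL (P := fun (q : ((α × (ℕ → ℕ)) × ℕ) × ℕ) v =>
        ∃ n v', wof q.1.1.2 (dl q.1.2 ++ [n]) (dl q.2 ++ v ++ v')) ?_
      refine S11.exN (P := fun r : ((((α × (ℕ → ℕ)) × ℕ) × ℕ) × ℕ) × ℕ =>
        ∃ v', wof r.1.1.1.1.2 (dl r.1.1.1.2 ++ [r.2]) (dl r.1.1.2 ++ dl r.1.2 ++ v')) ?_
      refine S11.exL (P := fun (r : ((((α × (ℕ → ℕ)) × ℕ) × ℕ) × ℕ) × ℕ) v' =>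
        wof r.1.1.1.1.2 (dl r.1.1.1.2 ++ [r.2]) (dl r.1.1.2 ++ dl r.1.2 ++ v')) ?_
      -- context: ((((((α × x) × s) × u) × v) × n) × v')
      have g1 : GF (fun t : (((((α × (ℕ → ℕ)) × ℕ) × ℕ) × ℕ) × ℕ) × ℕ => t.1.1) :=
        GF.fst.comp GF.fst
      have g2 : GF (fun t : (((((α × (ℕ → ℕ)) × ℕ) × ℕ) × ℕ) × ℕ) × ℕ => t.1.1.1) :=
        GF.fst.comp g1
      have g3 : GF (fun t : (((((α × (ℕ → ℕ)) × ℕ) × ℕ) × ℕ) × ℕ) × ℕ => t.1.1.1.1) :=
        GF.fst.comp g2
      have g4 : GF (fun t : (((((α × (ℕ → ℕ)) × ℕ) × ℕ) × ℕ) × ℕ) × ℕ => t.1.1.1.1.1) :=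
        GF.fst.comp g3
      refine S11.dec (CN_w (x := fun t : (((((α × (ℕ → ℕ)) × ℕ) × ℕ) × ℕ) × ℕ) × ℕ =>
          t.1.1.1.1.1.2)
        (s := fun t => dl t.1.1.1.1.2 ++ [t.1.2])
        (u := fun t => dl t.1.1.1.2 ++ dl t.1.1.2 ++ dl t.2)
        (GF.snd.comp g4) ?_ ?_)
      · exact CN.prim2 (f := fun (a : List ℕ) (n : ℕ) => a ++ [n]) Primrec.list_concat
          (CN.dl (CN.nat (GF.snd.comp g3))) (CN.nat (GF.snd.comp GF.fst))
      · exact CN.prim2 (f := fun a b : List ℕ => a ++ b) Primrec.list_append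
          (CN.prim2 (f := fun a b : List ℕ => a ++ b) Primrec.list_append
            (CN.dl (CN.nat (GF.snd.comp g2))) (CN.dl (CN.nat (GF.snd.comp g1))))
          (CN.dl (CN.nat GF.snd))
  · -- third clause
    refine S11.allL ?_
    refine S11.allL (P := fun (p : (α × (ℕ → ℕ)) × ℕ) u => wof p.1.2 (dl p.2) u →
      (dl p.2).length ≤ u.length ∧ P p.1.1 (u.take (dl p.2).length) (dl p.2)) ?_
    refine S11.imp_dec (F := fun q : ((α × (ℕ → ℕ)) × ℕ) × ℕ =>
      decide (q.1.1.2 (pc (dl q.1.2) (dl q.2)) = 0)) ?_ ?_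
    · exact CN_w (x := fun q : ((α × (ℕ → ℕ)) × ℕ) × ℕ => q.1.1.2)
        (s := fun q => dl q.1.2) (u := fun q => dl q.2)
        (GF.snd.comp (GF.fst.comp GF.fst)) (CN.dl (CN.nat (GF.snd.comp GF.fst)))
        (CN.dl (CN.nat GF.snd))
    · have hs : CN (fun q : ((α × (ℕ → ℕ)) × ℕ) × ℕ => dl q.1.2) :=
        CN.dl (CN.nat (GF.snd.comp GF.fst))
      have hu : CN (fun q : ((α × (ℕ → ℕ)) × ℕ) × ℕ => dl q.2) := CN.dl (CN.nat GF.snd)
      have hle : CN (fun q : ((α × (ℕ → ℕ)) × ℕ) × ℕ =>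
          decide ((dl q.1.2).length ≤ (dl q.2).length)) :=
        CN.prim2 (f := fun a b : ℕ => decide (a ≤ b)) Primrec.nat_le.decide
          (CN.prim Primrec.list_length hs) (CN.prim Primrec.list_length hu)
      refine S11.and ((S11.dec hle).of_iff fun q => by simp) ?_
      -- the matrix
      have hR0 : Primrec fun q : ((Rep.D α × List ℕ) × List ℕ) × ℕ => R q := hR
      have hM : Primrec fun p : Rep.D α × ℕ =>
          R (((p.1, (dl p.2.unpair.2).take (dl p.2.unpair.1).length), dl p.2.unpair.1),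
            (dl p.2.unpair.1).length) := by
        have hu1 : Primrec fun p : Rep.D α × ℕ => dl p.2.unpair.1 :=
          dl_prim.comp (Primrec.fst.comp (Primrec.unpair.comp Primrec.snd))
        have hu2 : Primrec fun p : Rep.D α × ℕ => dl p.2.unpair.2 :=
          dl_prim.comp (Primrec.snd.comp (Primrec.unpair.comp Primrec.snd))
        have hlen : Primrec fun p : Rep.D α × ℕ => (dl p.2.unpair.1).length :=
          Primrec.list_length.comp hu1
        exact hR0.comp (Primrec.pair (Primrec.pair (Primrec.pair Primrec.fst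
          (Primrec.list_take.comp hlen hu2)) hu1) hlen)
      have hg : Primrec fun n : ℕ => (dl n.unpair.1).length :=
        Primrec.list_length.comp (dl_prim.comp (Primrec.fst.comp Primrec.unpair))
      have h1 := CN_ap hM hg
      have h2 := h1.comp (F := fun p : α × ℕ => R (((Rep.ap p.1 (dl p.2.unpair.1).length,
          (dl p.2.unpair.2).take (dl p.2.unpair.1).length), dl p.2.unpair.1),
            (dl p.2.unpair.1).length))
        (G := fun q : ((α × (ℕ → ℕ)) × ℕ) × ℕ => (q.1.1.1, Nat.pair q.1.2 q.2))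
        (GF.pair (GF.fst.comp (GF.fst.comp GF.fst))
          (GF.nat (CN.prim2 Primrec₂.natPair (CN.nat (GF.snd.comp GF.fst)) (CN.nat GF.snd))))
      refine (S11.dec h2).of_iff fun q => ?_
      simp only [P, Nat.unpair_pair]

end Pool.Agent.H691R2.Cat
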