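import Pool.Agent.Helper750.Sig

set_option autoImplicit false

/-!
Cylinders in Baire space and category: basic facts.
-/

namespace Pool.Agent.H691R2.Cyl

open Encodable Pool.Agent.Helper750.Eff Filter Topology

/-- The basic open set of all sequences extending `u`. -/
def cyl (u : List ℕ) : Set (ℕ → ℕ) := {y | pfx y u.length = u}

theorem mem_cyl {u : List ℕ} {y : ℕ → ℕ} : y ∈ cyl u ↔ pfx y u.length = u := Iff.rfl

theorem mem_cyl_iff {u : List ℕ} {y : ℕ → ℕ} : y ∈ cyl u ↔ ∀ i < u.length, y i = u.getD i 0 := by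
  rw [mem_cyl]
  constructor
  · intro h i hi
    rw [← h, pfx_getD y hi]
  · intro h
    apply List.ext_getElem (by simp)
    intro i h1 h2
    have h3 := h i h2
    rw [List.getD_eq_getElem _ _ h2] at h3
    simp [pfx, h3]

theorem isOpen_cyl (u : List ℕ) : IsOpen (cyl u) := by
  have h : cyl u = Set.pi (↑(Finset.range u.length)) (fun i => {u.getD i 0}) := by
    ext y
    rw [mem_cyl_iff]
    simp [Set.mem_pi]
  rw [h]
  exact isOpen_set_pi (Finset.finite_toSet _) (fun _ _ => isOpen_discrete _)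

/-- A point of the cylinder of `u`. -/
def pt (u : List ℕ) : ℕ → ℕ := fun n => u.getD n 0

theorem pt_mem (u : List ℕ) : pt u ∈ cyl u := mem_cyl_iff.mpr fun _ _ => rfl

theorem cyl_append_subset (u v : List ℕ) : cyl (u ++ v) ⊆ cyl u := by
  intro y hy
  rw [mem_cyl_iff] at hy ⊢
  intro i hi
  rw [hy i (by rw [List.length_append]; omega), List.getD_append _ _ _ _ hi]

theorem mem_cyl_pfx (y : ℕ → ℕ) (n : ℕ) : y ∈ cyl (pfx y n) := by
  rw [mem_cyl, pfx_length]

theorem take_of_mem {u : List ℕ} {y : ℕ → ℕ} (hy : y ∈ cyl u) {k : ℕ} (hk : k ≤ u.length) :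
    u.take k = pfx y k := by
  rw [← mem_cyl.mp hy, pfx_take y hk]

theorem exists_append {u v : List ℕ} {y : ℕ → ℕ} (hu : y ∈ cyl u) (hv : y ∈ cyl v)
    (h : u.length ≤ v.length) : ∃ w, v = u ++ w := by
  refine ⟨v.drop u.length, ?_⟩
  have h1 : v.take u.length = u := by rw [take_of_mem hv h, mem_cyl.mp hu]
  conv_lhs => rw [← List.take_append_drop u.length v, h1]

theorem exists_cyl {O : Set (ℕ → ℕ)} (hO : IsOpen O) {y : ℕ → ℕ} (hy : y ∈ O) :
    ∃ n, cyl (pfx y n) ⊆ O := by
  rw [isOpen_pi_iff] at hO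
  obtain ⟨I, U, hU, hsub⟩ := hO y hy
  refine ⟨I.sup id + 1, fun z hz => hsub ?_⟩
  intro i hi
  have h1 : i < I.sup id + 1 := Nat.lt_succ_of_le (Finset.le_sup (f := id) hi)
  have h2 := mem_cyl_iff.mp hz i (by rw [pfx_length]; exact h1)
  rw [pfx_getD y h1] at h2
  rw [h2]
  exact (hU i hi).2

/-- A set meeting every cylinder is dense. -/
theorem dense_of_cyl {O : Set (ℕ → ℕ)} (h : ∀ u, ∃ y ∈ cyl u, y ∈ O) : Dense O := by
  intro x
  rw [mem_closure_iff]
  intro V hV hx
  obtain ⟨n, hn⟩ := exists_cyl hV hx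
  obtain ⟨y, hy, hyO⟩ := h (pfx x n)
  exact ⟨y, hn hy, hyO⟩

theorem not_meagre_cyl (u : List ℕ) : ¬ IsMeagre (cyl u) :=
  not_isMeagre_of_isOpen (isOpen_cyl u) ⟨_, pt_mem u⟩

/-- The Banach category theorem in Baire space, in the form needed. -/
theorem banach {B : Set (ℕ → ℕ)} {u : List ℕ} (h : ¬ IsMeagre (B ∩ cyl u)) :
    ∃ v, ∀ w, ¬ IsMeagre (B ∩ cyl (u ++ v ++ w)) := by
  by_contra hcon
  push Not at hcon
  apply h
  choose w hw using hcon
  let O : Set (ℕ → ℕ) := ⋃ v, cyl (u ++ v ++ w v)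
  have hO : IsOpen O := isOpen_iUnion fun v => isOpen_cyl _
  have h1 : IsMeagre (B ∩ O) := by
    have : B ∩ O = ⋃ v, B ∩ cyl (u ++ v ++ w v) := by rw [Set.inter_iUnion]
    rw [this]
    exact isMeagre_iUnion hw
  have h2 : IsMeagre (cyl u \ O) := by
    -- the complement of `cyl u \ O` is dense and contains an open dense set
    have hd : Dense ((cyl u)ᶜ ∪ O) := by
      apply dense_of_cyl
      intro t
      by_cases ht : ∃ y ∈ cyl t, y ∉ cyl u
      · obtain ⟨y, hy, hyu⟩ := ht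
        exact ⟨y, hy, Or.inl hyu⟩
      · push Not at ht
        -- `cyl t ⊆ cyl u`
        by_cases hl : u.length ≤ t.length
        · obtain ⟨v, rfl⟩ := exists_append (ht _ (pt_mem t)) (pt_mem t) hl
          refine ⟨pt (u ++ v ++ w v), cyl_append_subset _ _ (pt_mem _), Or.inr ?_⟩
          exact Set.mem_iUnion.mpr ⟨v, pt_mem _⟩
        · obtain ⟨v, hv⟩ := exists_append (pt_mem t) (ht _ (pt_mem t)) (by omega)
          refine ⟨pt (u ++ [] ++ w []), ?_, Or.inr ?_⟩
          · have h3 := cyl_append_subset _ _ (cyl_append_subset _ _ (pt_mem (u ++ [] ++ w [])))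
            rw [hv] at h3 ⊢
            exact cyl_append_subset _ _ h3
          · exact Set.mem_iUnion.mpr ⟨[], pt_mem _⟩
    have hopen : IsOpen ((cyl u)ᶜ ∪ O) := by
      refine IsOpen.union ?_ hO
      have hc : IsClosed (cyl u) := by
        have h : cyl u = Set.pi (↑(Finset.range u.length)) (fun i => {u.getD i 0}) := by
          ext y
          rw [mem_cyl_iff]
          simp [Set.mem_pi]
        rw [h]
        exact isClosed_set_pi (fun _ _ => isClosed_discrete _)
      exact hc.isOpen_compl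
    have := residual_of_dense_open hopen hd
    refine mem_of_superset this ?_
    intro y hy
    rintro ⟨h3, h4⟩
    rcases hy with hy | hy
    · exact hy h3
    · exact h4 hy
  have h3 : B ∩ cyl u ⊆ (B ∩ O) ∪ (cyl u \ O) := by
    rintro y ⟨hy1, hy2⟩
    by_cases hyO : y ∈ O
    · exact Or.inl ⟨hy1, hyO⟩
    · exact Or.inr ⟨hy2, hyO⟩
  exact (h1.union h2).mono h3

end Pool.Agent.H691R2.Cyl
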