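import Pool.Agent.H691R2.Branch
import Mathlib.MeasureTheory.Constructions.Polish.Basic
import Mathlib.Topology.Baire.BaireMeasurable

set_option autoImplicit false

/-!
For every Hyp relation `R` there is a Hyp equivalence relation which is not reducible to `R` on any
comeager set by any Baire measurable function.
-/

namespace Pool.Agent.H691R2.Gen

open Encodable Pool.Agent.Helper750.Eff Pool.Agent.Helper750.Sig Filter Topology
  Pool.Agent.H691R2.Cyl Pool.Agent.H691R2.Cat Pool.Agent.H691R2.Branch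

variable {α : Type} [Rep α]

/-! ### The Baire property -/

theorem locConst_pfx (n : ℕ) : IsLocallyConstant (fun y : ℕ → ℕ => pfx y n) := by
  rw [IsLocallyConstant.iff_exists_open]
  intro x
  refine ⟨cyl (pfx x n), isOpen_cyl _, mem_cyl_pfx x n, fun y hy => ?_⟩
  have := mem_cyl.mp hy
  rwa [pfx_length] at this

theorem analytic {Z : α × (ℕ → ℕ) → Prop} (hZ : S11 Z) (a : α) :
    MeasureTheory.AnalyticSet {y : ℕ → ℕ | Z (a, y)} := by
  obtain ⟨Q, ⟨R, hR, hQ⟩, hZQ⟩ := hZ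
  let C : Set ((ℕ → ℕ) × (ℕ → ℕ)) :=
    {p | ∀ n, R (((Rep.ap a n, pfx p.1 n), pfx p.2 n), n) = true}
  have hC : IsClosed C := by
    have h : C = ⋂ n, {p : (ℕ → ℕ) × (ℕ → ℕ) |
        R (((Rep.ap a n, pfx p.1 n), pfx p.2 n), n) = true} := by
      ext p
      simp [C]
    rw [h]
    refine isClosed_iInter fun n => ?_
    have h1 : IsLocallyConstant (fun p : (ℕ → ℕ) × (ℕ → ℕ) => (pfx p.1 n, pfx p.2 n)) :=
      ((locConst_pfx n).comp_continuous continuous_fst).prodMk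
        ((locConst_pfx n).comp_continuous continuous_snd)
    have h2 := h1.comp (fun q : List ℕ × List ℕ => R (((Rep.ap a n, q.1), q.2), n))
    exact h2.isClosed_fiber true
  have h1 : {y : ℕ → ℕ | Z (a, y)} = Prod.fst '' C := by
    ext y
    constructor
    · intro hy
      obtain ⟨w, hw⟩ := (hZQ (a, y)).mp hy
      exact ⟨(y, w), (hQ ((a, y), w)).mp hw, rfl⟩
    · rintro ⟨⟨y', w⟩, hp, rfl⟩
      exact (hZQ (a, y')).mpr ⟨w, (hQ ((a, y'), w)).mpr hp⟩
  rw [h1]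
  exact hC.analyticSet.image_of_continuous continuous_fst

theorem baire {Z : α × (ℕ → ℕ) → Prop} (hZ : D11 Z) (a : α) :
    BaireMeasurableSet {y : ℕ → ℕ | Z (a, y)} := by
  borelize (ℕ → ℕ)
  have h1 := analytic hZ.1 a
  have h2 := analytic hZ.2 a
  exact (h1.measurableSet_of_compl h2).baireMeasurableSet

theorem not_eventually_iff {B : Set (ℕ → ℕ)} (hB : BaireMeasurableSet B) :
    (¬ ∀ᶠ y in residual (ℕ → ℕ), y ∈ B) ↔
      ∃ u, ∀ᶠ y in residual (ℕ → ℕ), y ∈ cyl u → y ∉ B := by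
  constructor
  · intro h
    obtain ⟨U, hU, hBU⟩ := hB.compl.residualEq_isOpen
    have hBU' : ∀ᶠ y in residual (ℕ → ℕ), (y ∈ Bᶜ ↔ y ∈ U) := eventuallyEq_set.mp hBU
    by_cases hne : U.Nonempty
    · obtain ⟨x, hx⟩ := hne
      obtain ⟨n, hn⟩ := exists_cyl hU hx
      exact ⟨pfx x n, hBU'.mono fun y hy hyc => hy.mpr (hn hyc)⟩
    · exfalso
      apply h
      refine hBU'.mono fun y hy => ?_
      by_contra hyB
      exact hne ⟨y, hy.mp hyB⟩
  · rintro ⟨u, hu⟩ h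
    have h1 : ∀ᶠ y in residual (ℕ → ℕ), y ∉ cyl u := by
      filter_upwards [h, hu] with y hy1 hy2 hy3
      exact hy2 hy3 hy1
    exact not_meagre_cyl u h1

theorem D11_cat {Z : α × (ℕ → ℕ) → Prop} (hZ : D11 Z) :
    D11 (fun a => ∀ᶠ y in residual (ℕ → ℕ), Z (a, y)) := by
  refine ⟨S11.cat hZ.1, ?_⟩
  refine S11.of_iff ?_ (fun a => not_eventually_iff (baire hZ a))
  refine S11.exL (P := fun (a : α) u => ∀ᶠ y in residual (ℕ → ℕ), y ∈ cyl u → y ∉ {y | Z (a, y)}) ?_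
  refine S11.cat (Z := fun q : (α × ℕ) × (ℕ → ℕ) =>
    q.2 ∈ cyl (dl q.1.2) → q.2 ∉ {y | Z (q.1.1, y)}) ?_
  have h1 : CN (fun q : (α × ℕ) × (ℕ → ℕ) =>
      decide (pfx q.2 (dl q.1.2).length = dl q.1.2)) := by
    have h2 : CN (fun q : (α × ℕ) × (ℕ → ℕ) => dl q.1.2) := CN.dl (CN.nat (GF.snd.comp GF.fst))
    exact CN.prim2 (f := fun a b : List ℕ => decide (a = b)) Primrec.eq.decide
      (CN.pfx GF.snd (CN.prim Primrec.list_length h2)) h2
  refine (S11.imp_dec h1 (hZ.2.comp (F := fun q : (α × ℕ) × (ℕ → ℕ) => (q.1.1, q.2))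
    (GF.pair (GF.fst.comp GF.fst) GF.snd))).of_iff fun q => ?_
  rw [decide_eq_true_eq]
  exact Iff.rfl

/-! ### Codes of functions which are continuous on a comeager set -/

/-- The function coded by `c`. -/
noncomputable def gE (c y : ℕ → ℕ) : ℕ → ℕ := fun n =>
  open Classical in
  if h : ∃ m, c (Nat.pair (encode (pfx y m)) n) ≠ 0 then
    c (Nat.pair (encode (pfx y (Nat.find h))) n) - 1 else 0

theorem gE_iff {c y z : ℕ → ℕ} : gE c y = z ↔ ∀ n,
    (∃ m, c (Nat.pair (encode (pfx y m)) n) = z n + 1 ∧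
      ∀ m', m' < m → c (Nat.pair (encode (pfx y m')) n) = 0) ∨
    ((∀ m, c (Nat.pair (encode (pfx y m)) n) = 0) ∧ z n = 0) := by
  classical
  rw [funext_iff]
  refine forall_congr' fun n => ?_
  by_cases h : ∃ m, c (Nat.pair (encode (pfx y m)) n) ≠ 0
  · have e : gE c y n = c (Nat.pair (encode (pfx y (Nat.find h))) n) - 1 := by
      unfold gE
      rw [dif_pos h]
    have hpos := Nat.find_spec h
    constructor
    · intro h1
      left
      refine ⟨Nat.find h, ?_, fun m' hm' => ?_⟩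
      · rw [e] at h1
        omega
      · have := Nat.find_min h hm'
        push Not at this
        exact this
    · rintro (⟨m, hm, hmin⟩ | ⟨h0, _⟩)
      · have h2 : Nat.find h = m := by
          rw [Nat.find_eq_iff]
          refine ⟨by omega, fun m' hm' => ?_⟩
          rw [not_not]
          exact hmin m' hm'
        rw [e, h2, hm]
        rfl
      · obtain ⟨m, hm⟩ := h
        exact absurd (h0 m) hm
  · have e : gE c y n = 0 := by
      unfold gE
      rw [dif_neg h]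
    push Not at h
    constructor
    · intro h1
      right
      exact ⟨h, by rw [← h1, e]⟩
    · rintro (⟨m, hm, _⟩ | ⟨_, h0⟩)
      · rw [h m] at hm
        omega
      · rw [e, h0]

theorem S11_gE {c y z : α → ℕ → ℕ} (hc : GF c) (hy : GF y) (hz : GF z) :
    S11 (fun a => gE (c a) (y a) = z a) := by
  refine S11.of_iff ?_ (fun a => gE_iff)
  refine S11.allN (P := fun p : α × ℕ =>
    (∃ m, c p.1 (Nat.pair (encode (pfx (y p.1) m)) p.2) = z p.1 p.2 + 1 ∧
      ∀ m', m' < m → c p.1 (Nat.pair (encode (pfx (y p.1) m')) p.2) = 0) ∨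
    ((∀ m, c p.1 (Nat.pair (encode (pfx (y p.1) m)) p.2) = 0) ∧ z p.1 p.2 = 0)) ?_
  have g1 : GF (fun q : (α × ℕ) × ℕ => q.1.1) := GF.fst.comp GF.fst
  have hv : CN (fun q : (α × ℕ) × ℕ =>
      c q.1.1 (Nat.pair (encode (pfx (y q.1.1) q.2)) q.1.2)) :=
    CN.app (hc.comp g1) (CN.prim2 Primrec₂.natPair (CN.prim Primrec.encode
      (CN.pfx (hy.comp g1) (CN.nat GF.snd))) (CN.nat (GF.snd.comp GF.fst)))
  have hzz : CN (fun q : (α × ℕ) × ℕ => z q.1.1 q.1.2) :=
    CN.app (hz.comp g1) (CN.nat (GF.snd.comp GF.fst))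
  refine S11.or ?_ (S11.and ?_ ?_)
  · refine S11.exN (P := fun q : (α × ℕ) × ℕ =>
      c q.1.1 (Nat.pair (encode (pfx (y q.1.1) q.2)) q.1.2) = z q.1.1 q.1.2 + 1 ∧
      ∀ m', m' < q.2 → c q.1.1 (Nat.pair (encode (pfx (y q.1.1) m')) q.1.2) = 0) ?_
    refine S11.and ?_ ?_
    · refine (S11.dec (CN.prim2 (f := fun a b : ℕ => decide (a = b + 1))
        (Primrec.eq.decide.comp Primrec.fst (Primrec.succ.comp Primrec.snd)) hv hzz)).of_iff
        fun q => by simp
    · refine S11.allN (P := fun r : ((α × ℕ) × ℕ) × ℕ =>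
        r.2 < r.1.2 → c r.1.1.1 (Nat.pair (encode (pfx (y r.1.1.1) r.2)) r.1.1.2) = 0) ?_
      have h1 : CN (fun r : ((α × ℕ) × ℕ) × ℕ => decide (r.2 < r.1.2)) :=
        CN_lt (CN.nat GF.snd) (CN.nat (GF.snd.comp GF.fst))
      have h2 := hv.comp (G := fun r : ((α × ℕ) × ℕ) × ℕ => (r.1.1, r.2))
        (GF.pair (GF.fst.comp GF.fst) GF.snd)
      refine (S11.imp_dec h1 (S11.dec (CN.prim (f := fun a : ℕ => decide (a = 0))
        (Primrec.eq.decide.comp Primrec.id (Primrec.const 0)) h2))).of_iff fun r => ?_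
      simp only [decide_eq_true_eq]
  · refine S11.allN (P := fun q : (α × ℕ) × ℕ =>
      c q.1.1 (Nat.pair (encode (pfx (y q.1.1) q.2)) q.1.2) = 0) ?_
    exact (S11.dec (CN.prim (f := fun a : ℕ => decide (a = 0))
      (Primrec.eq.decide.comp Primrec.id (Primrec.const 0)) hv)).of_iff fun q => by simp
  · exact (S11.dec (CN.prim (f := fun a : ℕ => decide (a = 0))
      (Primrec.eq.decide.comp Primrec.id (Primrec.const 0))
      (CN.app (hz.comp GF.fst) (CN.nat GF.snd)))).of_iff fun q => by simp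

theorem exists_code {φ : (ℕ → ℕ) → (ℕ → ℕ)}
    (hφ : ∀ n k, BaireMeasurableSet {y | φ y n = k}) :
    ∃ c, ∀ᶠ y in residual (ℕ → ℕ), gE c y = φ y := by
  classical
  choose U hU hUeq using fun n k => (hφ n k).residualEq_isOpen
  let c : ℕ → ℕ := fun e => if h : ∃ k, cyl (dl e.unpair.1) ⊆ U e.unpair.2 k then
    Nat.find h + 1 else 0
  refine ⟨c, ?_⟩
  have h1 : ∀ᶠ y in residual (ℕ → ℕ), ∀ n k, (φ y n = k ↔ y ∈ U n k) := by
    rw [eventually_countable_forall]
    intro n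
    rw [eventually_countable_forall]
    intro k
    exact eventuallyEq_set.mp (hUeq n k)
  refine h1.mono fun y hy => ?_
  have hc : ∀ m n, c (Nat.pair (encode (pfx y m)) n) ≠ 0 →
      c (Nat.pair (encode (pfx y m)) n) = φ y n + 1 := by
    intro m n hne
    by_cases h : ∃ k, cyl (dl (Nat.pair (encode (pfx y m)) n).unpair.1) ⊆
        U (Nat.pair (encode (pfx y m)) n).unpair.2 k
    · have e : c (Nat.pair (encode (pfx y m)) n) = Nat.find h + 1 := dif_pos h
      have hs := Nat.find_spec h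
      rw [e]
      congr 1
      generalize Nat.find h = k0 at hs ⊢
      have hmem : y ∈ U n k0 := by
        have h2 : y ∈ cyl (dl (Nat.pair (encode (pfx y m)) n).unpair.1) := by
          rw [Nat.unpair_pair, dl_encode]
          exact mem_cyl_pfx y m
        have h3 := hs h2
        have h4 : (Nat.pair (encode (pfx y m)) n).unpair.2 = n := by rw [Nat.unpair_pair]
        rw [h4] at h3
        exact h3
      exact ((hy n _).mpr hmem).symm
    · exact absurd (dif_neg h) hne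
  rw [gE_iff]
  intro n
  left
  have hex : ∃ m, c (Nat.pair (encode (pfx y m)) n) ≠ 0 := by
    obtain ⟨m, hm⟩ := exists_cyl (hU n (φ y n)) ((hy n _).mp rfl)
    refine ⟨m, ?_⟩
    have h : ∃ k, cyl (dl (Nat.pair (encode (pfx y m)) n).unpair.1) ⊆
        U (Nat.pair (encode (pfx y m)) n).unpair.2 k := by
      refine ⟨φ y n, ?_⟩
      rw [Nat.unpair_pair, dl_encode]
      exact hm
    have e : c (Nat.pair (encode (pfx y m)) n) = Nat.find h + 1 := dif_pos h
    rw [e]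
    exact Nat.succ_ne_zero _
  refine ⟨Nat.find hex, hc _ _ (Nat.find_spec hex), fun m' hm' => ?_⟩
  have := Nat.find_min hex hm'
  push Not at this
  exact this

/-! ### Flipping along a branch -/

/-- A fixed-point-free involution. -/
def tau (k : ℕ) : ℕ := if k % 2 = 0 then k + 1 else k - 1

theorem tau_tau (k : ℕ) : tau (tau k) = k := by
  unfold tau
  split_ifs <;> omega

theorem tau_ne (k : ℕ) : tau k ≠ k := by
  unfold tau
  split_ifs <;> omega

theorem tau_prim : Primrec tau := by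
  refine Primrec.ite ?_ Primrec.succ Primrec.pred
  exact Primrec.eq.comp (Primrec.nat_mod.comp Primrec.id (Primrec.const 2)) (Primrec.const 0)

/-- Flip the values of `y` along the branch `c`. -/
def fl (c y : ℕ → ℕ) : ℕ → ℕ := fun n => if decide (Br c n) = true then tau (y n) else y n

theorem fl_fl (c y : ℕ → ℕ) : fl c (fl c y) = y := by
  funext n
  unfold fl
  by_cases h : Br c n
  · simp [h, tau_tau]
  · simp [h]

theorem fl_ne_iff {c y : ℕ → ℕ} {n : ℕ} : fl c y n ≠ y n ↔ Br c n := by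
  unfold fl
  by_cases h : Br c n
  · simp [h, tau_ne]
  · simp [h]

theorem continuous_fl (c : ℕ → ℕ) : Continuous (fl c) := by
  refine continuous_pi fun n => ?_
  unfold fl
  by_cases h : Br c n
  · simp only [h, decide_true, if_true]
    exact (continuous_of_discreteTopology (f := tau)).comp (continuous_apply n)
  · simp only [h, decide_false]
    exact continuous_apply n

/-- The flip as a homeomorphism. -/
def flH (c : ℕ → ℕ) : (ℕ → ℕ) ≃ₜ (ℕ → ℕ) where
  toFun := fl c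
  invFun := fl c
  left_inv := fl_fl c
  right_inv := fl_fl c
  continuous_toFun := continuous_fl c
  continuous_invFun := continuous_fl c

theorem eventually_fl {p : (ℕ → ℕ) → Prop} (c : ℕ → ℕ) (h : ∀ᶠ y in residual (ℕ → ℕ), p y) :
    ∀ᶠ y in residual (ℕ → ℕ), p (fl c y) :=
  (tendsto_residual_of_isOpenMap (flH c).continuous (flH c).isOpenMap).eventually h

theorem GF_fl {c y : α → ℕ → ℕ} (hc : GF c) (hy : GF y) : GF (fun a => fl (c a) (y a)) := by
  have h1 : CN (fun p : α × ℕ => y p.1 p.2) := CN.app (hy.comp GF.fst) (CN.nat GF.snd)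
  exact GF.curry (F := fun p : α × ℕ => if decide (Br (c p.1) p.2) = true then tau (y p.1 p.2)
    else y p.1 p.2) (CN.ite (CN_Br (hc.comp GF.fst) (CN.nat GF.snd)) (CN.prim tau_prim h1) h1)

theorem Fr_fl_iff {D : (ℕ → ℕ) → Prop} {c y : ℕ → ℕ} : Fr D (fl c y) y ↔ D c := by
  constructor
  · rintro ⟨k, C, hD, hcov⟩
    have h1 : ∀ M, ∃ m ≥ M, encode (pfx c m) ∈ {n | fl c y n ≠ y n} := fun M =>
      ⟨M, le_refl M, fl_ne_iff.mpr (Br_encode c M)⟩
    obtain ⟨i, hi, he⟩ := hcov.mem h1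
    exact he ▸ hD i hi
  · intro hD
    have e : col (fun n => c n.unpair.2) 0 = c := by
      funext n
      simp [col]
    refine ⟨1, fun n => c n.unpair.2, fun i hi => ?_, 0, fun n _ hn => ⟨0, Nat.one_pos, ?_⟩⟩
    · have : i = 0 := by omega
      rw [this, e]
      exact hD
    · rw [e]
      exact fl_ne_iff.mp hn

/-! ### The diagonal set -/

/-- The diagonal set of `R`. -/
def Dg (R : (ℕ → ℕ) → (ℕ → ℕ) → Prop) (c : ℕ → ℕ) : Prop :=
  ¬ ∀ᶠ y in residual (ℕ → ℕ), R (gE c (fl c y)) (gE c y)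

theorem D11_Dg {R : (ℕ → ℕ) → (ℕ → ℕ) → Prop}
    (hR : D11 (fun p : (ℕ → ℕ) × (ℕ → ℕ) => R p.1 p.2)) : D11 (Dg R) := by
  have key : ∀ {Q : (ℕ → ℕ) × (ℕ → ℕ) → Prop}, S11 Q →
      S11 (fun q : (ℕ → ℕ) × (ℕ → ℕ) => Q (gE q.1 (fl q.1 q.2), gE q.1 q.2)) := by
    intro Q hQ
    have h1 : S11 (fun r : (((ℕ → ℕ) × (ℕ → ℕ)) × (ℕ → ℕ)) × (ℕ → ℕ) =>
        gE r.1.1.1 (fl r.1.1.1 r.1.1.2) = r.1.2 ∧ gE r.1.1.1 r.1.1.2 = r.2 ∧ Q (r.1.2, r.2)) := by
      have g1 : GF (fun r : (((ℕ → ℕ) × (ℕ → ℕ)) × (ℕ → ℕ)) × (ℕ → ℕ) => r.1.1) :=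
        GF.fst.comp GF.fst
      have g2 : GF (fun r : (((ℕ → ℕ) × (ℕ → ℕ)) × (ℕ → ℕ)) × (ℕ → ℕ) => r.1.1.1) :=
        GF.fst.comp g1
      have g3 : GF (fun r : (((ℕ → ℕ) × (ℕ → ℕ)) × (ℕ → ℕ)) × (ℕ → ℕ) => r.1.1.2) :=
        GF.snd.comp g1
      refine S11.and (S11_gE g2 (GF_fl g2 g3) (GF.snd.comp GF.fst))
        (S11.and (S11_gE g2 g3 GF.snd) ?_)
      exact hQ.comp (F := fun r : (((ℕ → ℕ) × (ℕ → ℕ)) × (ℕ → ℕ)) × (ℕ → ℕ) => (r.1.2, r.2))
        (GF.pair (GF.snd.comp GF.fst) GF.snd)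
    refine (S11.exR (S11.exR h1)).of_iff fun q => ?_
    constructor
    · intro h
      exact ⟨_, _, rfl, rfl, h⟩
    · rintro ⟨z, z', h1, h2, h3⟩
      simp only at h1 h2 h3
      rw [h1, h2]
      exact h3
  exact (D11_cat (Z := fun q : (ℕ → ℕ) × (ℕ → ℕ) => R (gE q.1 (fl q.1 q.2)) (gE q.1 q.2))
    ⟨key hR.1, key hR.2⟩).not

/-- The equivalence relation associated with `R`. -/
def FR (R : (ℕ → ℕ) → (ℕ → ℕ) → Prop) : (ℕ → ℕ) → (ℕ → ℕ) → Prop := Fr (Dg R)

theorem FR_equiv (R : (ℕ → ℕ) → (ℕ → ℕ) → Prop) : Equivalence (FR R) := Fr_equiv _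

theorem D11_FR {R : (ℕ → ℕ) → (ℕ → ℕ) → Prop}
    (hR : D11 (fun p : (ℕ → ℕ) × (ℕ → ℕ) => R p.1 p.2)) :
    D11 (fun p : (ℕ → ℕ) × (ℕ → ℕ) => FR R p.1 p.2) :=
  ⟨S11_Fr (D11_Dg hR).1, S11_not_Fr (D11_Dg hR).2⟩

/-- `FR R` is not reducible to `R` on a comeager set by a Baire measurable function. -/
theorem no_red {R : (ℕ → ℕ) → (ℕ → ℕ) → Prop} {φ : (ℕ → ℕ) → (ℕ → ℕ)}
    (hφ : ∀ n k, BaireMeasurableSet {y | φ y n = k}) {C : (ℕ → ℕ) → Prop}
    (hC : ∀ᶠ y in residual (ℕ → ℕ), C y)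
    (hred : ∀ y y', C y → C y' → (FR R y y' ↔ R (φ y) (φ y'))) : False := by
  obtain ⟨c, hc⟩ := exists_code hφ
  have h1 := hc.and hC
  have h2 := h1.and (eventually_fl c h1)
  have h3 : ∀ᶠ y in residual (ℕ → ℕ), (R (gE c (fl c y)) (gE c y) ↔ Dg R c) := by
    refine h2.mono ?_
    rintro y ⟨⟨h4, h5⟩, h6, h7⟩
    rw [h4, h6, ← hred _ _ h7 h5]
    exact Fr_fl_iff
  by_cases hD : Dg R c
  · exact hD (h3.mono fun y hy => hy.mpr hD)
  · have h4 : ∀ᶠ y in residual (ℕ → ℕ), R (gE c (fl c y)) (gE c y) := not_not.mp hD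
    obtain ⟨y, hy1, hy2⟩ := (dense_of_mem_residual (h3.and h4)).nonempty
    exact hD (hy1.mp hy2)

end Pool.Agent.H691R2.Gen
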