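import Pool.Agent.H691R2.Cat

set_option autoImplicit false

/-!
Two effectively closed sets which are incomparable for Hyp functions, in a strong sense which
involves the category quantifier.
-/

namespace Pool.Agent.H691R2.Pair

open Encodable Nat.Partrec Pool.Agent.Helper750.Eff Pool.Agent.Helper750.Basis
  Pool.Agent.Helper750.KL Pool.Agent.Helper750.Sig Filter Topology Pool.Agent.H691R2.Cyl
  Pool.Agent.H691R2.Cat

variable {α : Type} [Rep α]

/-- The constant sequence zero. -/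
def O : ℕ → ℕ := fun _ => 0

theorem GF_O : GF (fun _ : α => O) := GF.zero

/-- The effectively closed set with index `j`. -/
def Yc (j : ℕ) (z : ℕ → ℕ) : Prop :=
  ∀ l, UR j.unpair.1 j.unpair.2 (pfx O l) (pfx z l) = true

theorem Cl_Yc {n : α → ℕ} {z : α → ℕ → ℕ} (hn : CN n) (hz : GF z) :
    Cl (fun a => Yc (n a) (z a)) := by
  refine Cl.allN (P := fun c : α × ℕ =>
    UR (n c.1).unpair.1 (n c.1).unpair.2 (pfx O c.2) (pfx (z c.1) c.2) = true) (Cl.dec ?_)
  have hu : CN (fun c : α × ℕ => (n c.1).unpair) := CN.prim Primrec.unpair (hn.comp GF.fst)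
  exact CN_UR (CN.prim Primrec.fst hu) (CN.prim Primrec.snd hu) (CN.pfx GF_O (CN.nat GF.snd))
    (CN.pfx (hz.comp GF.fst) (CN.nat GF.snd))

/-- `z` is a selection of indices of minimal trees. -/
def MinSel (i : ℕ) (x z : ℕ → ℕ) : Prop := ∀ m k, Leq (T i x m (z m)) (T i x m k)

theorem S11_MinSel {i : α → ℕ} {x z : α → ℕ → ℕ} (hi : CN i) (hx : GF x) (hz : GF z) :
    S11 (fun a => MinSel (i a) (x a) (z a)) := by
  refine S11.allN (P := fun d : α × ℕ =>
    ∀ k : ℕ, Leq (T (i d.1) (x d.1) d.2 (z d.1 d.2)) (T (i d.1) (x d.1) d.2 k)) ?_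
  refine S11.allN (P := fun e : (α × ℕ) × ℕ =>
    Leq (T (i e.1.1) (x e.1.1) e.1.2 (z e.1.1 e.1.2)) (T (i e.1.1) (x e.1.1) e.1.2 e.2)) ?_
  have g1 : GF (fun e : (α × ℕ) × ℕ => e.1.1) := GF.fst.comp GF.fst
  have g2 : CN (fun e : (α × ℕ) × ℕ => e.1.2) := CN.nat (GF.snd.comp GF.fst)
  exact S11_Leq (hi.comp g1) g2 (CN.app (hz.comp g1) g2) (CN.nat GF.snd) (hx.comp g1)

theorem exists_MinSel (i : ℕ) (x : ℕ → ℕ) : ∃ z, MinSel i x z := by
  have hmin : ∀ m, ∃ k, ∀ k', Sim (T i x m k) (T i x m k') [] [] := fun m =>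
    exists_min (T := fun k => T i x m k) (fun k => UR_nil _ _ _)
  choose z hz using hmin
  exact ⟨z, fun m k => (hz m k).leq (fun t a h => UR_closed h) (UR_nil _ _ _)⟩

theorem exists_index {f : (ℕ → ℕ) → (ℕ → ℕ)}
    (hf : S11 (fun p : (ℕ → ℕ) × (ℕ → ℕ) => f p.1 = p.2)) :
    ∃ i, ∀ x z, MinSel i x z → z = f x := by
  have hP : S11 (fun p : (ℕ → ℕ) × ℕ => ∃ y, f p.1 = y ∧ y p.2.unpair.1 ≠ p.2.unpair.2) := by
    refine S11.exR (P := fun q : ((ℕ → ℕ) × ℕ) × (ℕ → ℕ) =>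
      f q.1.1 = q.2 ∧ q.2 q.1.2.unpair.1 ≠ q.1.2.unpair.2) ?_
    refine S11.and (hf.comp (F := fun q : ((ℕ → ℕ) × ℕ) × (ℕ → ℕ) => (q.1.1, q.2))
      (GF.pair (GF.fst.comp GF.fst) GF.snd)) ?_
    have hu : CN (fun q : ((ℕ → ℕ) × ℕ) × (ℕ → ℕ) => q.1.2.unpair) :=
      CN.prim Primrec.unpair (CN.nat (GF.snd.comp GF.fst))
    have hu1 : CN (fun q : ((ℕ → ℕ) × ℕ) × (ℕ → ℕ) => q.1.2.unpair.1) := CN.prim Primrec.fst hu
    have hu2 : CN (fun q : ((ℕ → ℕ) × ℕ) × (ℕ → ℕ) => q.1.2.unpair.2) := CN.prim Primrec.snd hu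
    have hd : CN (fun q : ((ℕ → ℕ) × ℕ) × (ℕ → ℕ) =>
        decide (¬ (q.2 q.1.2.unpair.1 = q.1.2.unpair.2))) :=
      CN.prim2 (f := fun a b : ℕ => decide (¬ (a = b))) (Primrec.eq.not.decide)
        (CN.app GF.snd hu1) hu2
    exact (S11.dec hd).of_iff fun q => by simp
  obtain ⟨i, hi⟩ := universal hP
  refine ⟨i, fun x z hmin => ?_⟩
  have hill : ∀ m k, f x m ≠ k ↔ Ill (T i x m k) := by
    intro m k
    have h1 := hi x (Nat.pair m k)
    simp only [Nat.unpair_pair] at h1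
    have h2 : (∃ y, f x = y ∧ y m ≠ k) ↔ f x m ≠ k :=
      ⟨fun ⟨y, e, h⟩ => by rw [e]; exact h, fun h => ⟨_, rfl, h⟩⟩
    rw [← h2, h1]
    refine exists_congr fun p => forall_congr' fun l => ?_
    unfold T
    rw [pfx_length]
  funext m
  by_contra hne'
  have h1 : Ill (T i x m (z m)) := (hill m (z m)).mp (fun e => hne' e.symm)
  have h2 : Ill (T i x m (f x m)) := (hmin m (f x m)).ill h1
  exact (hill m (f x m)).mpr h2 rfl

/-- The basic relation between indices. -/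
def MM (j k : ℕ) : Prop :=
  ∀ i : ℕ, ∃ x : ℕ → ℕ, Yc j x ∧
    ∀ᶠ y in residual (ℕ → ℕ), ∃ z, MinSel i (join x y) z ∧ ¬ Yc k z

theorem S11_MM : S11 (fun p : ℕ × ℕ => MM p.1 p.2) := by
  refine S11.allN (P := fun p : (ℕ × ℕ) × ℕ => ∃ x : ℕ → ℕ, Yc p.1.1 x ∧
    ∀ᶠ y in residual (ℕ → ℕ), ∃ z, MinSel p.2 (join x y) z ∧ ¬ Yc p.1.2 z) ?_
  refine S11.exR (P := fun q : ((ℕ × ℕ) × ℕ) × (ℕ → ℕ) => Yc q.1.1.1 q.2 ∧
    ∀ᶠ y in residual (ℕ → ℕ), ∃ z, MinSel q.1.2 (join q.2 y) z ∧ ¬ Yc q.1.1.2 z) ?_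
  refine S11.and ?_ ?_
  · exact S11.cl (Cl_Yc (CN.nat (GF.fst.comp (GF.fst.comp GF.fst))) GF.snd)
  · refine S11.cat (Z := fun r : (((ℕ × ℕ) × ℕ) × (ℕ → ℕ)) × (ℕ → ℕ) =>
      ∃ z, MinSel r.1.1.2 (join r.1.2 r.2) z ∧ ¬ Yc r.1.1.1.2 z) ?_
    refine S11.exR (P := fun s : ((((ℕ × ℕ) × ℕ) × (ℕ → ℕ)) × (ℕ → ℕ)) × (ℕ → ℕ) =>
      MinSel s.1.1.1.2 (join s.1.1.2 s.1.2) s.2 ∧ ¬ Yc s.1.1.1.1.2 s.2) ?_
    have g1 : GF (fun s : ((((ℕ × ℕ) × ℕ) × (ℕ → ℕ)) × (ℕ → ℕ)) × (ℕ → ℕ) => s.1.1) :=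
      GF.fst.comp GF.fst
    have g2 : GF (fun s : ((((ℕ × ℕ) × ℕ) × (ℕ → ℕ)) × (ℕ → ℕ)) × (ℕ → ℕ) => s.1.1.1) :=
      GF.fst.comp g1
    refine S11.and (S11_MinSel (CN.nat (GF.snd.comp g2))
      (GF.join (GF.snd.comp g1) (GF.snd.comp GF.fst)) GF.snd) ?_
    exact S11.not_cl (Cl_Yc (CN.nat (GF.snd.comp (GF.fst.comp g2))) GF.snd)

theorem MM_of_empty {j k : ℕ} (hj : ∃ x, Yc j x) (hk : ¬ ∃ z, Yc k z) : MM j k := by
  intro i
  obtain ⟨x, hx⟩ := hj
  refine ⟨x, hx, Eventually.of_forall fun y => ?_⟩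
  obtain ⟨z, hz⟩ := exists_MinSel i (join x y)
  exact ⟨z, hz, fun h => hk ⟨z, h⟩⟩

theorem MM.ne {j k : ℕ} (h : MM j k) : ∃ x, Yc j x := by
  obtain ⟨x, hx, _⟩ := h 0
  exact ⟨x, hx⟩

/-! ### Comparison of trees -/

/-- The subtree above `[b]`. -/
def Sub (T : List ℕ → Prop) (b : ℕ) : List ℕ → Prop := fun t => T ([b] ++ t)

theorem img_take (h : ℕ → ℕ) (t : List ℕ) (j : ℕ) : (img h t).take j = img h (t.take j) := by
  unfold img
  apply List.ext_getElem
  · simp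
  · intro i h1 h2
    simp only [List.length_take, List.length_map, List.length_range] at h1 h2
    simp only [List.getElem_take, List.getElem_map, List.getElem_range]
    rw [List.take_take]
    congr 3
    omega

theorem img_img (g h : ℕ → ℕ) (t : List ℕ) :
    img g (img h t) = img (fun e => g (encode (img h (dl e)))) t := by
  conv_lhs => unfold img
  conv_rhs => unfold img
  simp only [dl_encode]
  rw [List.length_map, List.length_range]
  refine List.map_congr_left fun j _ => ?_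
  have := img_take h t (j + 1)
  unfold img at this
  rw [this]

theorem Leq.trans {T S U : List ℕ → Prop} (h1 : Leq T S) (h2 : Leq S U) : Leq T U := by
  obtain ⟨h, hh⟩ := h1
  obtain ⟨g, hg⟩ := h2
  exact ⟨_, fun t ht => by rw [← img_img]; exact hg _ (hh _ ht)⟩

theorem ill_of_leq_sub {T : List ℕ → Prop} (h0 : T []) {b : ℕ} (h : Leq T (Sub T b)) : Ill T := by
  obtain ⟨k, hk⟩ := h
  let τ : ℕ → List ℕ := fun n => Nat.rec [] (fun _ t => [b] ++ img k t) n
  have hτ : ∀ n, τ (n + 1) = [b] ++ img k (τ n) := fun n => rfl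
  have hT : ∀ n, T (τ n) := by
    intro n
    induction n with
    | zero => exact h0
    | succ n ih => rw [hτ]; exact hk _ ih
  have hlen : ∀ n, (τ n).length = n := by
    intro n
    induction n with
    | zero => rfl
    | succ n ih => rw [hτ, List.length_append, img_length, ih, List.length_singleton]; omega
  have htake : ∀ n, (τ (n + 1)).take n = τ n := by
    intro n
    induction n with
    | zero => rfl
    | succ n ih =>
      rw [hτ (n + 1), List.singleton_append, List.take_succ_cons, img_take, ih, hτ n]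
      rfl
  have hp : ∀ n, pfx (fun n => (τ (n + 1)).getD n 0) n = τ n := by
    intro n
    induction n with
    | zero =>
      have := hlen 0
      rw [List.length_eq_zero_iff] at this
      rw [this]; rfl
    | succ n ih =>
      rw [pfx_succ, ih]
      have hl := hlen (n + 1)
      have h2 : (τ (n + 1)).take (n + 1) = τ (n + 1) := List.take_of_length_le (by omega)
      rw [List.take_succ_eq_append_getElem (by omega : n < (τ (n + 1)).length), htake] at h2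
      rw [List.getD_eq_getElem _ _ (by omega : n < (τ (n + 1)).length)]
      exact h2
  exact ⟨_, fun l => by rw [hp]; exact hT l⟩

theorem Ill.of_sub {T : List ℕ → Prop} (h0 : T []) {b : ℕ} (h : Ill (Sub T b)) : Ill T := by
  obtain ⟨p, hp⟩ := h
  refine ⟨fun n => Nat.casesOn n b p, fun l => ?_⟩
  cases l with
  | zero => exact h0
  | succ l =>
    have h1 : pfx (fun n => Nat.casesOn n b p) (l + 1) = [b] ++ pfx p l := by
      unfold pfx
      rw [List.range_succ_eq_map, List.map_cons, List.map_map]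
      rfl
    have h2 := hp l
    unfold Sub at h2
    rw [h1]
    exact h2

theorem leq_of_sim_sub {T S : List ℕ → Prop} (hS : ∀ t a, S (t ++ [a]) → S t) {b : ℕ}
    (hb : T [b]) (h : Sim S T [] [b]) : Leq S (Sub T b) := by
  refine Sim.leq hS (by exact hb) ?_
  obtain ⟨G, hG, hst⟩ := h
  refine ⟨fun s t => G s ([b] ++ t), by simpa using hG, fun s t hg a ha => ?_⟩
  obtain ⟨c, hc, hg'⟩ := hst s _ hg a ha
  refine ⟨c, ?_, ?_⟩
  · unfold Sub
    rw [← List.append_assoc]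
    exact hc
  · change G (s ++ [a]) ([b] ++ (t ++ [c]))
    rw [← List.append_assoc]
    exact hg'

/-- The tree of index `c, m`, for the parameter zero. -/
def TT (c m : ℕ) (t : List ℕ) : Prop := UR c m (pfx O t.length) t = true

theorem TT_nil (c m : ℕ) : TT c m [] := UR_nil _ _ _

theorem TT_closed (c m : ℕ) (t : List ℕ) (a : ℕ) (h : TT c m (t ++ [a])) : TT c m t :=
  UR_closed h

theorem S11_Leq_sub {c : ℕ} {m m' : α → ℕ} {r : α → List ℕ} (hm : CN m) (hm' : CN m')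
    (hr : CN r) :
    S11 (fun a => Leq (TT c (m a)) (fun t => TT c (m' a) (r a ++ t))) := by
  let B : (α × (ℕ → ℕ)) × ℕ → Bool := fun q =>
    !(UR c (m q.1.1) (pfx O (dl q.2).length) (dl q.2)) ||
    UR c (m' q.1.1) (pfx O (r q.1.1 ++ img q.1.2 (dl q.2)).length) (r q.1.1 ++ img q.1.2 (dl q.2))
  have ha : GF (fun q : (α × (ℕ → ℕ)) × ℕ => q.1.1) := GF.fst.comp GF.fst
  have hh : GF (fun q : (α × (ℕ → ℕ)) × ℕ => q.1.2) := GF.snd.comp GF.fst
  have ht : CN (fun q : (α × (ℕ → ℕ)) × ℕ => dl q.2) := CN.dl (CN.nat GF.snd)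
  have hl : CN (fun q : (α × (ℕ → ℕ)) × ℕ => (dl q.2).length) := CN.prim Primrec.list_length ht
  have himg : CN (fun q : (α × (ℕ → ℕ)) × ℕ => r q.1.1 ++ img q.1.2 (dl q.2)) :=
    CN.prim2 (f := fun a b : List ℕ => a ++ b) Primrec.list_append (hr.comp ha) (CN_img hh ht)
  have hB : CN B := by
    refine CN.prim2 Primrec.or (CN.prim Primrec.not ?_) ?_
    · exact CN_UR (CN.const c) (hm.comp ha) (CN.pfx GF_O hl) ht
    · exact CN_UR (CN.const c) (hm'.comp ha) (CN.pfx GF_O (CN.prim Primrec.list_length himg)) himg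
  refine (S11.exR (S11.allN (S11.dec hB))).of_iff fun a => ?_
  refine exists_congr fun h => ?_
  constructor
  · intro hall u
    change (!(UR c (m a) (pfx O (dl u).length) (dl u)) ||
      UR c (m' a) (pfx O (r a ++ img h (dl u)).length) (r a ++ img h (dl u))) = true
    have h1 := hall (dl u)
    unfold TT at h1
    rw [Bool.or_eq_true, Bool.not_eq_true']
    by_cases h2 : UR c (m a) (pfx O (dl u).length) (dl u) = true
    · exact Or.inr (h1 h2)
    · exact Or.inl (by simpa using h2)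
  · intro hall t ht
    have h1 := hall (encode t)
    change (!(UR c (m a) (pfx O (dl (encode t)).length) (dl (encode t))) ||
      UR c (m' a) (pfx O (r a ++ img h (dl (encode t))).length)
        (r a ++ img h (dl (encode t)))) = true at h1
    rw [dl_encode, Bool.or_eq_true, Bool.not_eq_true'] at h1
    unfold TT at ht ⊢
    rcases h1 with h1 | h1
    · rw [ht] at h1
      exact absurd h1 (by simp)
    · exact h1

/-- Comparison of the trees of index `m` and `m'`. -/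
def Phi1 (c m m' : ℕ) : Prop := Leq (TT c m) (TT c m')

/-- Strict comparison of the trees of index `m` and `m'`. -/
def Phi2 (c m m' : ℕ) : Prop := ∃ b, TT c m [b] ∧ Leq (TT c m') (Sub (TT c m) b)

theorem S11_Phi1 {c : ℕ} {m m' : α → ℕ} (hm : CN m) (hm' : CN m') :
    S11 (fun a => Phi1 c (m a) (m' a)) :=
  (S11_Leq_sub (c := c) (r := fun _ => []) hm hm' (CN.const [])).of_iff fun _ => Iff.rfl

theorem S11_Phi2 {c : ℕ} {m m' : α → ℕ} (hm : CN m) (hm' : CN m') :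
    S11 (fun a => Phi2 c (m a) (m' a)) := by
  refine S11.exN (P := fun p : α × ℕ => TT c (m p.1) [p.2] ∧
    Leq (TT c (m' p.1)) (Sub (TT c (m p.1)) p.2)) ?_
  have hs : CN (fun p : α × ℕ => [p.2]) :=
    CN.prim (f := fun n : ℕ => [n]) (Primrec.list_cons.comp Primrec.id (Primrec.const []))
      (CN.nat GF.snd)
  refine S11.and ?_ ?_
  · exact S11.dec (F := fun p : α × ℕ => UR c (m p.1) (pfx O [p.2].length) [p.2])
      (CN_UR (CN.const c) (hm.comp GF.fst) (CN.pfx GF_O (CN.prim Primrec.list_length hs)) hs)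
  · exact S11_Leq_sub (c := c) (m := fun p : α × ℕ => m' p.1) (m' := fun p : α × ℕ => m p.1)
      (r := fun p : α × ℕ => [p.2]) (hm'.comp GF.fst) (hm.comp GF.fst) hs

theorem Phi_total (c m m' : ℕ) : Phi1 c m m' ∨ Phi2 c m m' := by
  rcases comparable (T := TT c m) (S := TT c m') (TT_nil c m) with h | ⟨b, hb, h⟩
  · exact Or.inl (h.leq (TT_closed c m) (TT_nil c m'))
  · exact Or.inr ⟨b, hb, leq_of_sim_sub (TT_closed c m') hb h⟩

theorem Phi_excl {c m m' : ℕ} (h1 : Phi1 c m m') (h2 : Phi2 c m m') : Ill (TT c m) := by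
  obtain ⟨b, _, h⟩ := h2
  exact ill_of_leq_sub (TT_nil c m) (Leq.trans h1 h)

/-- Two nonempty effectively closed sets `A`, `B` such that for every Hyp function `f` there is
`x` in `A` with `f (join x y)` outside `B` for comeagerly many `y`, and conversely. -/
theorem exists_pair : ∃ A B : (ℕ → ℕ) → Prop, Cl A ∧ Cl B ∧
    (∀ f : (ℕ → ℕ) → (ℕ → ℕ), S11 (fun p : (ℕ → ℕ) × (ℕ → ℕ) => f p.1 = p.2) →
      ∃ x, A x ∧ ∀ᶠ y in residual (ℕ → ℕ), ¬ B (f (join x y))) ∧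
    (∀ f : (ℕ → ℕ) → (ℕ → ℕ), S11 (fun p : (ℕ → ℕ) × (ℕ → ℕ) => f p.1 = p.2) →
      ∃ x, B x ∧ ∀ᶠ y in residual (ℕ → ℕ), ¬ A (f (join x y))) := by
  have hu : CN (fun p : (ℕ → ℕ) × ℕ => p.2.unpair) := CN.prim Primrec.unpair (CN.nat GF.snd)
  have hu1 : CN (fun p : (ℕ → ℕ) × ℕ => p.2.unpair.1) := CN.prim Primrec.fst hu
  have hu2 : CN (fun p : (ℕ → ℕ) × ℕ => p.2.unpair.2) := CN.prim Primrec.snd hu
  obtain ⟨c, hc⟩ := universal (P := fun p : (ℕ → ℕ) × ℕ => MM p.2.unpair.1 p.2.unpair.2)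
    (S11_MM.comp (F := fun p : (ℕ → ℕ) × ℕ => (p.2.unpair.1, p.2.unpair.2))
      (GF.pair (GF.nat hu1) (GF.nat hu2)))
  have hc' : ∀ j k, MM j k ↔ Ill (TT c (Nat.pair j k)) := by
    intro j k
    have h1 := hc O (Nat.pair j k)
    simp only [Nat.unpair_pair] at h1
    rw [h1]
    refine exists_congr fun p => forall_congr' fun l => ?_
    unfold TT
    rw [pfx_length]
  -- the two diagonal predicates
  let J : ℕ → ℕ := fun m => Nat.pair m.unpair.1 m
  let K : ℕ → ℕ := fun m => Nat.pair m.unpair.2 m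
  have hJ : CN (fun p : (ℕ → ℕ) × ℕ => J p.2) := CN.prim2 Primrec₂.natPair hu1 (CN.nat GF.snd)
  have hK : CN (fun p : (ℕ → ℕ) × ℕ => K p.2) := CN.prim2 Primrec₂.natPair hu2 (CN.nat GF.snd)
  have hJK : CN (fun p : (ℕ → ℕ) × ℕ => Nat.pair (J p.2) (K p.2)) :=
    CN.prim2 Primrec₂.natPair hJ hK
  have hKJ : CN (fun p : (ℕ → ℕ) × ℕ => Nat.pair (K p.2) (J p.2)) :=
    CN.prim2 Primrec₂.natPair hK hJ
  obtain ⟨i1, hi1⟩ := universal (P := fun p : (ℕ → ℕ) × ℕ =>
    Phi1 c (Nat.pair (J p.2) (K p.2)) (Nat.pair (K p.2) (J p.2))) (S11_Phi1 hJK hKJ)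
  obtain ⟨i2, hi2⟩ := universal (P := fun p : (ℕ → ℕ) × ℕ =>
    Phi2 c (Nat.pair (J p.2) (K p.2)) (Nat.pair (K p.2) (J p.2))) (S11_Phi2 hJK hKJ)
  obtain ⟨m, hm⟩ : ∃ m, m = Nat.pair i1 i2 := ⟨_, rfl⟩
  obtain ⟨j, hj⟩ : ∃ j, j = J m := ⟨_, rfl⟩
  obtain ⟨k, hk⟩ : ∃ k, k = K m := ⟨_, rfl⟩
  have h1 : Phi1 c (Nat.pair j k) (Nat.pair k j) ↔ ∃ p, Yc j p := by
    have h := hi1 O m
    simp only [← hj, ← hk] at h
    rw [h]
    refine exists_congr fun p => forall_congr' fun l => ?_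
    rw [hj]
    simp only [J, Nat.unpair_pair]
    rw [hm]
    simp only [Nat.unpair_pair]
  have h2 : Phi2 c (Nat.pair j k) (Nat.pair k j) ↔ ∃ p, Yc k p := by
    have h := hi2 O m
    simp only [← hj, ← hk] at h
    rw [h]
    refine exists_congr fun p => forall_congr' fun l => ?_
    rw [hk]
    simp only [K, Nat.unpair_pair]
    rw [hm]
    simp only [Nat.unpair_pair]
  have hboth : MM j k ∧ MM k j := by
    by_contra hcon
    have hna : ¬ MM j k := by
      intro h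
      apply hcon
      refine ⟨h, ?_⟩
      rw [hc']
      exact (h1.mpr h.ne).ill ((hc' j k).mp h)
    have hnb : ¬ MM k j := by
      intro h
      obtain ⟨b, _, hb⟩ := h2.mpr h.ne
      apply hna
      rw [hc']
      exact Ill.of_sub (TT_nil _ _) (hb.ill ((hc' k j).mp h))
    by_cases hp1 : Phi1 c (Nat.pair j k) (Nat.pair k j)
    · by_cases hp2 : Phi2 c (Nat.pair j k) (Nat.pair k j)
      · exact hna ((hc' j k).mpr (Phi_excl hp1 hp2))
      · exact hna (MM_of_empty (h1.mp hp1) (fun h => hp2 (h2.mpr h)))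
    · have hp2 := (Phi_total c (Nat.pair j k) (Nat.pair k j)).resolve_left hp1
      exact hnb (MM_of_empty (h2.mp hp2) (fun h => hp1 (h1.mpr h)))
  refine ⟨Yc j, Yc k, Cl_Yc (CN.const j) GF.id, Cl_Yc (CN.const k) GF.id, ?_, ?_⟩
  · intro f hf
    obtain ⟨i, hi⟩ := exists_index hf
    obtain ⟨x, hx, hy⟩ := hboth.1 i
    refine ⟨x, hx, hy.mono ?_⟩
    rintro y ⟨z, hz, hnz⟩
    rw [← hi _ _ hz]
    exact hnz
  · intro f hf
    obtain ⟨i, hi⟩ := exists_index hf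
    obtain ⟨x, hx, hy⟩ := hboth.2 i
    refine ⟨x, hx, hy.mono ?_⟩
    rintro y ⟨z, hz, hnz⟩
    rw [← hi _ _ hz]
    exact hnz

end Pool.Agent.H691R2.Pair
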